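import Mathlib
import Pool.Agent.Lib.P325t.WDefs
import Pool.Agent.Lib.P325n.Defs

/-!
# The gap problem for typed unique games
-/

namespace Pool.Agent.P325r

open Pool.Agent.P325f1f.Dich Pool.Agent.P325t Pool.Agent.P325n

/-- The instances over `Fin q` that are typed over `T` with frequencies proportional to `w` and with
the constraint `σ k` on the edges of type `k`: left vertices, right vertices and edges have types in
`P`, `Q` and `κ`, the ends of an edge of type `k` have the types `src k` and `dst k`, its constraint is
`σ k`, and the proportion of edges of type `k` is `w k / ∑ w`. -/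
def TypedInst {P Q κ : Type} [Fintype κ] (T : TypeGraph P Q κ) (w : κ → ℕ) {q : ℕ}
    (σ : κ → Equiv.Perm (Fin q)) : Set (Inst q) := by
  classical
  exact {I | ∃ (a : Fin I.a → P) (b : Fin I.b → Q) (c : Fin I.m → κ),
    (∀ e, a (I.game.src e) = T.src (c e) ∧ b (I.game.dst e) = T.dst (c e) ∧
      I.game.perm e = σ (c e)) ∧
    ∀ k, (Finset.univ.filter (fun e => c e = k)).card * ∑ l, w l = w k * I.m}

/-- The gap problem for games typed over `T` with frequencies `w` is NP-hard with completeness `c` and
soundness `δ`: for every `ε > 0` with `ε + δ < c` there are a number `q` of labels and constraints `σ k`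
such that it is NP-hard to distinguish the games typed over `T` with frequencies `w` and
constraints `σ` of value at least `c - ε` from those of value at most `δ`. -/
def TypedHard {P Q κ : Type} [Fintype κ] (c : ℚ) (T : TypeGraph P Q κ) (w : κ → ℕ) (δ : ℚ) : Prop :=
  ∀ ε : ℚ, 0 < ε → ε + δ < c → ∃ q : ℕ, 0 < q ∧ ∃ σ : κ → Equiv.Perm (Fin q),
    NPHard {I : Inst q | I ∈ TypedInst T w σ ∧ ((c - ε : ℚ) : ℝ) ≤ I.game.value}
      {I : Inst q | I ∈ TypedInst T w σ ∧ I.game.value ≤ ((δ : ℚ) : ℝ)}

end Pool.Agent.P325r
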