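import Mathlib
import Pool.Agent.Lib.P325f1f.Dich.GameDefs

/-!
# Products of unique games and the collision value
-/

open Finset
open scoped BigOperators

namespace Pool.Agent.P325r

open Pool.Agent.P325f1f.Dich

/-- The product of two games: both are played at once. -/
def prodGame {U W Ω ι U' W' Ω' ι' : Type} (I : Game U W Ω ι) (J : Game U' W' Ω' ι') :
    Game (U × U') (W × W') (Ω × Ω') (ι × ι') where
  src p := (I.src p.1, J.src p.2)
  dst p := (I.dst p.1, J.dst p.2)
  perm p := (I.perm p.1).prodCongr (J.perm p.2)

section

variable {U W Ω ι : Type} [DecidableEq W] [Fintype W] [Fintype Ω] [DecidableEq Ω] [Fintype ι]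

/-- The number of edges at a right vertex. -/
def deg (I : Game U W Ω ι) (w : W) : ℕ := (univ.filter (fun e => I.dst e = w)).card

/-- The mass that arrives at the label `β` of the right vertex `w`. -/
noncomputable def push (I : Game U W Ω ι) (f : U → Ω → ℝ) (w : W) (β : Ω) : ℝ :=
  ∑ e, if I.dst e = w then f (I.src e) ((I.perm e).symm β) else 0

/-- The squared norm of the mass that arrives on the right side. -/
noncomputable def form (I : Game U W Ω ι) (f : U → Ω → ℝ) : ℝ :=
  ∑ w, (∑ β, push I f w β ^ 2) / ((Fintype.card ι : ℝ) * deg I w)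

/-- The indicator of a labeling. -/
def ind (x : U → Ω) : U → Ω → ℝ := fun u α => if x u = α then 1 else 0

/-- The collision value: the probability that two random edges at the right end of a random edge ask
for the same label. -/
noncomputable def coll (I : Game U W Ω ι) : ℝ := ⨆ x : U → Ω, form I (ind x)

/-- The weight of a pair of edges. -/
noncomputable def wt (I : Game U W Ω ι) (e e' : ι) : ℝ :=
  if I.dst e = I.dst e' then 1 / ((Fintype.card ι : ℝ) * deg I (I.dst e)) else 0

/-- The correlation of `f` along a pair of edges. -/
noncomputable def corr (I : Game U W Ω ι) (f : U → Ω → ℝ) (e e' : ι) : ℝ :=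
  ∑ β, f (I.src e) ((I.perm e).symm β) * f (I.src e') ((I.perm e').symm β)

/-- A feasible family of functions: nonnegative, and for every left vertex the total masses of the
labels form a vector of norm at most `1`. -/
def Feas {Z : Type} [Fintype Z] (f : Z → U → Ω → ℝ) : Prop :=
  (∀ z u α, 0 ≤ f z u α) ∧ ∀ u, ∑ z, (∑ α, f z u α) ^ 2 ≤ 1

end

end Pool.Agent.P325r
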