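import Mathlib
import Pool.Agent.Lib.P325r.Defs
import Pool.Agent.Lib.P325f1f.Dich.Games

/-!
# P325r.Basic (1 h): the collision value

`form_eq`: expand the square, `∑ w (∑ e ∑ e' [dst e = w][dst e' = w] ...) / (m deg w)`, exchange sums.
`wt_sum`: `∑ e' [dst e = dst e'] = deg (dst e) > 0`, so the inner sum is `1 / m`.
`form_ind`: with `f = ind x` the correlation of a pair is `1` if `perm e (x (src e)) = perm e' (x (src e'))`
and `0` otherwise.
`coll_le_value`: for a labeling `x` let `y w` be a label with `push I (ind x) w` maximal. Then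
`∑ β push ^ 2 ≤ push w (y w) * deg w` (as `∑ β push w β = deg w`), so
`form I (ind x) ≤ (∑ w, push w (y w)) / m = satFrac x y ≤ value`.
`value_sq_le`: for `(x, y)`: `satFrac = (∑ w, push w (y w)) / m` and Cauchy-Schwarz
`(∑ w push w (y w)) ^ 2 ≤ (∑ w deg w) (∑ w push w (y w) ^ 2 / deg w)` (`Finset.sum_sq_le_sum_mul_sum_of_sq_eq_mul`
or `div_add_div_same`/`Finset.sum_div_...`; vertices of degree `0` have `push = 0`), `∑ w deg w = m`.
Useful: `le_value`, `value_le_one`, `satFrac_eq`, `bdd` in `P325f1f/Dich/Games.lean`.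
-/

open Finset
open scoped BigOperators

namespace Pool.Agent.P325r

open Pool.Agent.P325f1f.Dich

variable {U W Ω ι : Type} [DecidableEq W] [Fintype W] [Fintype Ω] [DecidableEq Ω] [Fintype ι]

theorem deg_pos (I : Game U W Ω ι) (e : ι) : 0 < deg I (I.dst e) := by
  unfold deg
  exact Finset.card_pos.2 ⟨e, Finset.mem_filter.2 ⟨mem_univ _, rfl⟩⟩

theorem wt_nonneg (I : Game U W Ω ι) (e e' : ι) : 0 ≤ wt I e e' := by
  unfold wt
  split_ifs <;> positivity

theorem wt_sum [Nonempty ι] (I : Game U W Ω ι) : ∑ e, ∑ e', wt I e e' = 1 := by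
  have hm : (Fintype.card ι : ℝ) ≠ 0 := by
    exact_mod_cast Fintype.card_ne_zero
  have h : ∀ e, ∑ e', wt I e e' = 1 / (Fintype.card ι : ℝ) := by
    intro e
    unfold wt
    rw [Finset.sum_ite, Finset.sum_const_zero, add_zero, Finset.sum_const, nsmul_eq_mul]
    have h1 : (univ.filter (fun e' => I.dst e = I.dst e')).card = deg I (I.dst e) := by
      unfold deg
      congr 1
      ext e'
      simp [eq_comm]
    rw [h1]
    have h2 : (deg I (I.dst e) : ℝ) ≠ 0 := by
      exact_mod_cast (deg_pos I e).ne'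
    field_simp
  rw [Finset.sum_congr rfl fun e _ => h e, Finset.sum_const, Finset.card_univ, nsmul_eq_mul]
  field_simp

theorem push_eq (I : Game U W Ω ι) (f : U → Ω → ℝ) (w : W) (β : Ω) :
    push I f w β = ∑ e, (if I.dst e = w then (1 : ℝ) else 0) * f (I.src e) ((I.perm e).symm β) := by
  unfold push
  refine Finset.sum_congr rfl fun e _ => ?_
  split_ifs <;> simp

theorem wt_eq (I : Game U W Ω ι) (e e' : ι) :
    wt I e e' = ∑ w, (if I.dst e = w then (1 : ℝ) else 0) * (if I.dst e' = w then (1 : ℝ) else 0) *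
      (1 / ((Fintype.card ι : ℝ) * deg I w)) := by
  rw [Finset.sum_eq_single (I.dst e)]
  · unfold wt
    by_cases h : I.dst e = I.dst e'
    · simp [h]
    · rw [if_neg h, if_neg (Ne.symm h)]
      simp
  · intro w _ hw
    rw [if_neg (Ne.symm hw)]
    simp
  · intro h
    exact absurd (mem_univ _) h

theorem form_eq (I : Game U W Ω ι) (f : U → Ω → ℝ) :
    form I f = ∑ e, ∑ e', wt I e e' * corr I f e e' := by
  obtain ⟨a, ha⟩ : ∃ a : ι → W → ℝ, a = fun e w => if I.dst e = w then (1 : ℝ) else 0 := ⟨_, rfl⟩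
  obtain ⟨F, hF⟩ : ∃ F : ι → Ω → ℝ, F = fun e β => f (I.src e) ((I.perm e).symm β) := ⟨_, rfl⟩
  obtain ⟨c, hc⟩ : ∃ c : W → ℝ, c = fun w => 1 / ((Fintype.card ι : ℝ) * deg I w) := ⟨_, rfl⟩
  have h1 : form I f = ∑ w, ∑ β, ∑ e, ∑ e', (a e w * a e' w * c w) * (F e β * F e' β) := by
    unfold form
    refine Finset.sum_congr rfl fun w _ => ?_
    rw [div_eq_mul_one_div, Finset.sum_mul]
    refine Finset.sum_congr rfl fun β _ => ?_
    rw [push_eq, sq, Finset.sum_mul_sum, Finset.sum_mul]
    refine Finset.sum_congr rfl fun e _ => ?_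
    rw [Finset.sum_mul]
    refine Finset.sum_congr rfl fun e' _ => ?_
    rw [ha, hF, hc]
    ring
  have h2 : ∀ e e', wt I e e' * corr I f e e' =
      ∑ w, ∑ β, (a e w * a e' w * c w) * (F e β * F e' β) := by
    intro e e'
    rw [wt_eq]
    unfold corr
    rw [Finset.sum_mul_sum, ha, hF, hc]
  rw [h1, Finset.sum_congr rfl fun e _ => Finset.sum_congr rfl fun e' _ => h2 e e']
  have h3 : ∀ w, ∑ β, ∑ e, ∑ e', (a e w * a e' w * c w) * (F e β * F e' β) =
      ∑ e, ∑ e', ∑ β, (a e w * a e' w * c w) * (F e β * F e' β) := by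
    intro w
    rw [Finset.sum_comm]
    refine Finset.sum_congr rfl fun e _ => ?_
    rw [Finset.sum_comm]
  rw [Finset.sum_congr rfl fun w _ => h3 w, Finset.sum_comm]
  refine Finset.sum_congr rfl fun e _ => ?_
  rw [Finset.sum_comm]

theorem corr_ind (I : Game U W Ω ι) (x : U → Ω) (e e' : ι) :
    corr I (ind x) e e' = if I.perm e (x (I.src e)) = I.perm e' (x (I.src e')) then 1 else 0 := by
  unfold corr ind
  have h : ∀ (e : ι) (β : Ω), (x (I.src e) = (I.perm e).symm β) = (I.perm e (x (I.src e)) = β) := by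
    intro e β
    rw [Equiv.eq_symm_apply]
  simp only [h]
  rw [Finset.sum_eq_single (I.perm e (x (I.src e)))]
  · rw [if_pos rfl, one_mul]
    by_cases hh : I.perm e (x (I.src e)) = I.perm e' (x (I.src e'))
    · rw [if_pos hh, if_pos hh.symm]
    · rw [if_neg hh, if_neg (Ne.symm hh)]
  · intro β _ hβ
    rw [if_neg (Ne.symm hβ), zero_mul]
  · intro h
    exact absurd (mem_univ _) h

theorem form_nonneg (I : Game U W Ω ι) (f : U → Ω → ℝ) : 0 ≤ form I f := by
  unfold form
  refine Finset.sum_nonneg fun w _ => div_nonneg (Finset.sum_nonneg fun β _ => sq_nonneg _) ?_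
  positivity

theorem form_ind_le_one [Nonempty ι] (I : Game U W Ω ι) (x : U → Ω) : form I (ind x) ≤ 1 := by
  rw [form_eq, ← wt_sum I]
  refine Finset.sum_le_sum fun e _ => Finset.sum_le_sum fun e' _ => ?_
  rw [corr_ind]
  have h := wt_nonneg I e e'
  split_ifs
  · rw [mul_one]
  · rw [mul_zero]; exact h

theorem form_le_coll [Nonempty ι] (I : Game U W Ω ι) (x : U → Ω) : form I (ind x) ≤ coll I := by
  unfold coll
  exact le_ciSup (f := fun x : U → Ω => form I (ind x))
    ⟨1, by rintro _ ⟨x, rfl⟩; exact form_ind_le_one I x⟩ x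

theorem coll_nonneg (I : Game U W Ω ι) : 0 ≤ coll I :=
  Real.iSup_nonneg fun _ => form_nonneg I _

theorem coll_le_one [Nonempty ι] (I : Game U W Ω ι) : coll I ≤ 1 :=
  Real.iSup_le (fun x => form_ind_le_one I x) zero_le_one

theorem push_zero (I : Game U W Ω ι) (f : U → Ω → ℝ) (w : W) (β : Ω) (h : deg I w = 0) :
    push I f w β = 0 := by
  unfold push
  refine Finset.sum_eq_zero fun e _ => ?_
  rw [if_neg]
  intro he
  have := deg_pos I e
  rw [he] at this
  omega

theorem push_ind (I : Game U W Ω ι) (x : U → Ω) (w : W) (β : Ω) :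
    push I (ind x) w β =
      ∑ e, if I.dst e = w then (if I.perm e (x (I.src e)) = β then (1 : ℝ) else 0) else 0 := by
  unfold push ind
  simp only [Equiv.eq_symm_apply]

theorem push_ind_nonneg (I : Game U W Ω ι) (x : U → Ω) (w : W) (β : Ω) :
    0 ≤ push I (ind x) w β := by
  rw [push_ind]
  refine Finset.sum_nonneg fun e _ => ?_
  split_ifs <;> norm_num

theorem push_ind_sum (I : Game U W Ω ι) (x : U → Ω) (w : W) :
    ∑ β, push I (ind x) w β = deg I w := by
  simp only [push_ind]
  rw [Finset.sum_comm]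
  have h : ∀ e, ∑ β, (if I.dst e = w then
      (if I.perm e (x (I.src e)) = β then (1 : ℝ) else 0) else 0) =
      if I.dst e = w then (1 : ℝ) else 0 := by
    intro e
    by_cases he : I.dst e = w
    · simp [he]
    · simp [he]
  rw [Finset.sum_congr rfl fun e _ => h e, Finset.sum_boole]
  rfl

theorem satFrac_push (I : Game U W Ω ι) (x : U → Ω) (y : W → Ω) :
    I.satFrac x y = (∑ w, push I (ind x) w (y w)) / (Fintype.card ι : ℝ) := by
  have h1 : ∑ w, push I (ind x) w (y w) =
      ((univ.filter (fun e => I.perm e (x (I.src e)) = y (I.dst e))).card : ℝ) := by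
    simp only [push_ind]
    rw [Finset.sum_comm, ← Finset.sum_boole]
    refine Finset.sum_congr rfl fun e _ => ?_
    rw [Finset.sum_eq_single (I.dst e)]
    · rw [if_pos rfl]
    · intro w _ hw
      rw [if_neg (Ne.symm hw)]
    · intro h
      exact absurd (mem_univ _) h
  rw [h1, Game.satFrac]
  congr!

theorem deg_sum (I : Game U W Ω ι) : ∑ w, (deg I w : ℝ) = Fintype.card ι := by
  have h : ∑ w, deg I w = Fintype.card ι := by
    unfold deg
    rw [← Finset.card_univ (α := ι)]
    exact (Finset.card_eq_sum_card_fiberwise (fun e _ => mem_univ (I.dst e))).symm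
  exact_mod_cast h

theorem coll_le_value [Nonempty ι] [Nonempty Ω] (I : Game U W Ω ι) : coll I ≤ I.value := by
  refine Real.iSup_le (fun x => ?_) (value_nonneg I)
  have hm : (0 : ℝ) < Fintype.card ι := by
    exact_mod_cast Fintype.card_pos
  have hy : ∀ w, ∃ β, ∀ β', push I (ind x) w β' ≤ push I (ind x) w β := fun w =>
    Finite.exists_max (push I (ind x) w)
  choose y hy using hy
  refine le_trans ?_ (le_value I x y)
  rw [satFrac_push, Finset.sum_div]
  unfold form
  refine Finset.sum_le_sum fun w _ => ?_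
  have h1 : ∑ β, push I (ind x) w β ^ 2 ≤ push I (ind x) w (y w) * deg I w := by
    rw [← push_ind_sum I x w, Finset.mul_sum]
    refine Finset.sum_le_sum fun β _ => ?_
    rw [sq]
    exact mul_le_mul_of_nonneg_right (hy w β) (push_ind_nonneg I x w β)
  rcases Nat.eq_zero_or_pos (deg I w) with h0 | h0
  · rw [h0, Nat.cast_zero, mul_zero, div_zero]
    exact div_nonneg (push_ind_nonneg I x w _) hm.le
  · have h0' : (0 : ℝ) < deg I w := by exact_mod_cast h0
    rw [div_le_div_iff₀ (by positivity) hm]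
    nlinarith [mul_le_mul_of_nonneg_right h1 hm.le]

theorem value_sq_le [Nonempty ι] [Nonempty Ω] (I : Game U W Ω ι) : I.value ^ 2 ≤ coll I := by
  have hm : (0 : ℝ) < Fintype.card ι := by
    exact_mod_cast Fintype.card_pos
  have key : ∀ (x : U → Ω) (y : W → Ω), I.satFrac x y ^ 2 ≤ coll I := by
    intro x y
    refine le_trans ?_ (form_le_coll I x)
    rw [satFrac_push, div_pow]
    have h1 := Finset.sum_sq_le_sum_mul_sum_of_sq_eq_mul (univ : Finset W)
      (f := fun w => (deg I w : ℝ))
      (g := fun w => push I (ind x) w (y w) ^ 2 / deg I w)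
      (r := fun w => push I (ind x) w (y w))
      (fun w _ => Nat.cast_nonneg _) (fun w _ => by positivity) (fun w _ => by
        rcases Nat.eq_zero_or_pos (deg I w) with h0 | h0
        · rw [push_zero I _ w _ h0]
          simp
        · have h0' : (deg I w : ℝ) ≠ 0 := by exact_mod_cast h0.ne'
          field_simp)
    rw [deg_sum] at h1
    have h2 : form I (ind x) ≥
        (∑ w, push I (ind x) w (y w) ^ 2 / deg I w) / (Fintype.card ι : ℝ) := by
      unfold form
      rw [Finset.sum_div]
      refine Finset.sum_le_sum fun w _ => ?_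
      rw [div_div, mul_comm (deg I w : ℝ)]
      refine div_le_div_of_nonneg_right ?_ (by positivity)
      exact Finset.single_le_sum (f := fun β => push I (ind x) w β ^ 2)
        (fun β _ => sq_nonneg _) (mem_univ (y w))
    refine le_trans ?_ h2
    rw [div_le_div_iff₀ (by positivity) hm]
    nlinarith [mul_le_mul_of_nonneg_right h1 hm.le]
  have h1 : I.value ≤ Real.sqrt (coll I) :=
    Real.iSup_le (fun p => Real.le_sqrt_of_sq_le (key p.1 p.2)) (Real.sqrt_nonneg _)
  calc I.value ^ 2 ≤ Real.sqrt (coll I) ^ 2 := pow_le_pow_left₀ (value_nonneg I) h1 2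
    _ = coll I := Real.sq_sqrt (coll_nonneg I)

end Pool.Agent.P325r
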