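import Mathlib
import Pool.Agent.Lib.P325r.Basic

/-!
# P325r.Prod (1 h): the collision value of a product

`coll_prod_le`: let `x : U × U' → Ω × Ω'` be a labeling of the product. Put `Z = W' × Ω'` and
`h (w', β') u α = (∑ e', if J.dst e' = w' ∧ x (u, J.src e') = (α, (J.perm e').symm β') then 1 else 0) /
√(m' * deg J w')`. Then
(a) `form (prodGame I J) (ind x) = ∑ z, form I (h z)`: both are
`∑ w w', (∑ β β', (number of pairs (e, e') with ends w, w' and
 x (src e, src e') = (π_e⁻¹ β, π_e'⁻¹ β')) ^ 2) / (m deg w m' deg w')`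
(`deg` of the product is the product of the degrees, terms with `deg = 0` have numerator `0` and
division by `0` is `0` on both sides);
(b) for every `u`: `∑ z, (∑ α, h z u α) ^ 2 = form J (ind (fun u' => (x (u, u')).2)) ≤ coll J`.
If `coll J = 0` then `h = 0` by (b) (nonnegative terms) and the left side is `0`; otherwise apply `hc` to
`h / √(coll J)`. (Or prove the scaled form of `hc` first: for nonnegative `h` with
`∑ z, (∑ α, h z u α) ^ 2 ≤ c0` for all `u` one has `∑ z, form I (h z) ≤ c * c0`, for every `c0 > 0`, by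
`form I (t • f) = t ^ 2 * form I f`, and let `c0 = coll J + r`, `r → 0`.)
`value_prod`: product labelings; the satisfied edges of the product contain the product of the sets
of satisfied edges.
-/

open Finset
open scoped BigOperators

namespace Pool.Agent.P325r

open Pool.Agent.P325f1f.Dich

section scaling

variable {U W Ω ι : Type} [DecidableEq W] [Fintype W] [Fintype Ω] [DecidableEq Ω] [Fintype ι]

theorem push_smul (I : Game U W Ω ι) (t : ℝ) (f : U → Ω → ℝ) (w : W) (β : Ω) :
    push I (fun u α => t * f u α) w β = t * push I f w β := by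
  unfold push
  rw [Finset.mul_sum]
  refine Finset.sum_congr rfl fun e _ => ?_
  split_ifs <;> simp

theorem form_smul (I : Game U W Ω ι) (t : ℝ) (f : U → Ω → ℝ) :
    form I (fun u α => t * f u α) = t ^ 2 * form I f := by
  unfold form
  rw [Finset.mul_sum]
  refine Finset.sum_congr rfl fun w _ => ?_
  rw [← mul_div_assoc, Finset.mul_sum]
  congr 1
  refine Finset.sum_congr rfl fun β _ => ?_
  rw [push_smul]
  ring

theorem scaled (I : Game U W Ω ι) (c : ℝ)
    (hc : ∀ (Z : Type) [Fintype Z] (f : Z → U → Ω → ℝ), Feas f → ∑ z, form I (f z) ≤ c)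
    (Z : Type) [Fintype Z] (h : Z → U → Ω → ℝ) (hn : ∀ z u α, 0 ≤ h z u α) (c0 : ℝ) (h0 : 0 ≤ c0)
    (hs : ∀ u, ∑ z, (∑ α, h z u α) ^ 2 ≤ c0) : ∑ z, form I (h z) ≤ c * c0 := by
  rcases h0.eq_or_lt with h1 | h1
  · have hz : ∀ z u α, h z u α = 0 := by
      intro z u α
      have h2 : ∑ z, (∑ α, h z u α) ^ 2 = 0 :=
        le_antisymm ((hs u).trans h1.symm.le) (Finset.sum_nonneg fun _ _ => sq_nonneg _)
      have h3 := (Finset.sum_eq_zero_iff_of_nonneg (fun _ _ => sq_nonneg _)).1 h2 z (mem_univ z)
      have h4 : ∑ α, h z u α = 0 := pow_eq_zero_iff (two_ne_zero) |>.1 h3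
      exact (Finset.sum_eq_zero_iff_of_nonneg (fun α _ => hn z u α)).1 h4 α (mem_univ α)
    have h5 : ∀ z, form I (h z) = 0 := by
      intro z
      unfold form push
      simp [hz]
    rw [Finset.sum_congr rfl fun z _ => h5 z, Finset.sum_const_zero, ← h1, mul_zero]
  · have hq : (0 : ℝ) < Real.sqrt c0 := Real.sqrt_pos.2 h1
    have hF : Feas (fun z u α => (Real.sqrt c0)⁻¹ * h z u α) := by
      refine ⟨fun z u α => mul_nonneg (inv_nonneg.2 hq.le) (hn z u α), fun u => ?_⟩
      have h2 : ∑ z, (∑ α, (Real.sqrt c0)⁻¹ * h z u α) ^ 2 = c0⁻¹ * ∑ z, (∑ α, h z u α) ^ 2 := by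
        rw [Finset.mul_sum]
        refine Finset.sum_congr rfl fun z _ => ?_
        rw [← Finset.mul_sum, mul_pow, inv_pow, Real.sq_sqrt h0]
      rw [h2]
      calc c0⁻¹ * ∑ z, (∑ α, h z u α) ^ 2 ≤ c0⁻¹ * c0 :=
            mul_le_mul_of_nonneg_left (hs u) (inv_nonneg.2 h0)
        _ = 1 := inv_mul_cancel₀ h1.ne'
    have h3 := hc Z _ hF
    have h4 : ∀ z, form I (fun u α => (Real.sqrt c0)⁻¹ * h z u α) = c0⁻¹ * form I (h z) := by
      intro z
      rw [form_smul, inv_pow, Real.sq_sqrt h0]
    rw [Finset.sum_congr rfl fun z _ => h4 z, ← Finset.mul_sum] at h3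
    have h5 := mul_le_mul_of_nonneg_left h3 h0
    rw [← mul_assoc, mul_inv_cancel₀ h1.ne', one_mul] at h5
    linarith

end scaling

theorem deg_prod {U W Ω ι U' W' Ω' ι' : Type} [DecidableEq W] [Fintype ι] [DecidableEq W']
    [Fintype ι'] (I : Game U W Ω ι) (J : Game U' W' Ω' ι') (w : W) (w' : W') :
    deg (prodGame I J) (w, w') = deg I w * deg J w' := by
  unfold deg
  rw [← Finset.card_product]
  congr 1
  ext ⟨e, e'⟩
  simp [prodGame]

theorem coll_prod_le {U W Ω ι U' W' Ω' ι' : Type} [DecidableEq W] [Fintype W] [Fintype Ω]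
    [DecidableEq Ω] [Fintype ι] [Nonempty ι] [DecidableEq W'] [Fintype W'] [Fintype Ω']
    [DecidableEq Ω'] [Fintype ι'] [Nonempty ι'] (I : Game U W Ω ι) (J : Game U' W' Ω' ι') (c : ℝ)
    (hc0 : 0 ≤ c) (hc : ∀ (Z : Type) [Fintype Z] (f : Z → U → Ω → ℝ), Feas f → ∑ z, form I (f z) ≤ c) :
    coll (prodGame I J) ≤ c * coll J := by
  refine Real.iSup_le (fun x => ?_) (mul_nonneg hc0 (coll_nonneg J))
  obtain ⟨q, hq⟩ : ∃ q : W' → ℝ, q = fun w' => Real.sqrt ((Fintype.card ι' : ℝ) * deg J w') :=
    ⟨_, rfl⟩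
  have hq2 : ∀ w', q w' ^ 2 = (Fintype.card ι' : ℝ) * deg J w' := by
    intro w'
    rw [hq]
    exact Real.sq_sqrt (by positivity)
  have hq0 : ∀ w', 0 ≤ q w' := by
    intro w'
    rw [hq]
    exact Real.sqrt_nonneg _
  obtain ⟨h, hh⟩ : ∃ h : W' × Ω' → U → Ω → ℝ, h = fun z u α =>
      (∑ e', if J.dst e' = z.1 then
        (if x (u, J.src e') = (α, (J.perm e').symm z.2) then (1 : ℝ) else 0) else 0) / q z.1 :=
    ⟨_, rfl⟩
  have hn : ∀ z u α, 0 ≤ h z u α := by
    intro z u α
    rw [hh]
    refine div_nonneg (Finset.sum_nonneg fun e' _ => ?_) (hq0 _)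
    split_ifs <;> norm_num
  -- the second coordinate
  have hs : ∀ u, ∑ z, (∑ α, h z u α) ^ 2 ≤ coll J := by
    intro u
    refine le_trans (le_of_eq ?_) (form_le_coll J (fun u' => (x (u, u')).2))
    rw [Fintype.sum_prod_type]
    unfold form
    refine Finset.sum_congr rfl fun w' _ => ?_
    rw [Finset.sum_div]
    refine Finset.sum_congr rfl fun β' _ => ?_
    have h1 : ∑ α, h (w', β') u α = push J (ind (fun u' => (x (u, u')).2)) w' β' / q w' := by
      rw [hh]
      simp only
      rw [← Finset.sum_div, Finset.sum_comm]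
      congr 1
      unfold push ind
      refine Finset.sum_congr rfl fun e' _ => ?_
      by_cases h2 : J.dst e' = w'
      · simp only [if_pos h2]
        by_cases h3 : (x (u, J.src e')).2 = (J.perm e').symm β'
        · rw [if_pos h3, Finset.sum_eq_single (x (u, J.src e')).1]
          · rw [if_pos]
            rw [← h3]
          · intro α _ hα
            rw [if_neg]
            intro h4
            exact hα (by rw [h4])
          · intro h4
            exact absurd (mem_univ _) h4
        · rw [if_neg h3]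
          refine Finset.sum_eq_zero fun α _ => ?_
          rw [if_neg]
          intro h4
          exact h3 (by rw [h4])
      · simp only [if_neg h2, Finset.sum_const_zero]
    rw [h1, div_pow, hq2]
  refine le_trans (le_of_eq ?_) (scaled I c hc (W' × Ω') h hn (coll J) (coll_nonneg J) hs)
  -- the two forms
  have h1 : ∀ w w' β β', push I (h (w', β')) w β =
      push (prodGame I J) (ind x) (w, w') (β, β') / q w' := by
    intro w w' β β'
    unfold push
    rw [hh, Fintype.sum_prod_type, Finset.sum_div]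
    refine Finset.sum_congr rfl fun e _ => ?_
    simp only [prodGame, ind, Prod.mk.injEq, Equiv.prodCongr_symm, Equiv.prodCongr_apply,
      Prod.map_apply]
    by_cases h2 : I.dst e = w
    · rw [if_pos h2]
      congr 1
      refine Finset.sum_congr rfl fun e' _ => ?_
      by_cases h3 : J.dst e' = w'
      · have h5 : I.dst e = w ∧ J.dst e' = w' := ⟨h2, h3⟩
        simp only [if_pos h3, if_pos h5]
      · have h5 : ¬ (I.dst e = w ∧ J.dst e' = w') := fun h4 => h3 h4.2
        simp only [if_neg h3, if_neg h5]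
    · rw [if_neg h2]
      symm
      have h4 : ∀ e' : ι', (if I.dst e = w ∧ J.dst e' = w' then
          (if x (I.src e, J.src e') = ((I.perm e).symm β, (J.perm e').symm β') then (1 : ℝ)
            else 0) else 0) = 0 := fun e' => if_neg (fun h4 => h2 h4.1)
      rw [Finset.sum_congr rfl fun e' _ => h4 e', Finset.sum_const_zero, zero_div]
  have h2 : ∑ z, form I (h z) = ∑ w', ∑ β', ∑ w, ∑ β,
      push (prodGame I J) (ind x) (w, w') (β, β') ^ 2 /
        (((Fintype.card ι : ℝ) * Fintype.card ι') * (deg I w * deg J w')) := by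
    rw [Fintype.sum_prod_type]
    refine Finset.sum_congr rfl fun w' _ => Finset.sum_congr rfl fun β' _ => ?_
    unfold form
    refine Finset.sum_congr rfl fun w _ => ?_
    rw [Finset.sum_div]
    refine Finset.sum_congr rfl fun β _ => ?_
    rw [h1, div_pow, hq2, div_div]
    congr 1
    ring
  have h3 : form (prodGame I J) (ind x) = ∑ w, ∑ w', ∑ β, ∑ β',
      push (prodGame I J) (ind x) (w, w') (β, β') ^ 2 /
        (((Fintype.card ι : ℝ) * Fintype.card ι') * (deg I w * deg J w')) := by
    unfold form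
    rw [Fintype.sum_prod_type]
    refine Finset.sum_congr rfl fun w _ => Finset.sum_congr rfl fun w' _ => ?_
    rw [Finset.sum_div, Fintype.sum_prod_type, deg_prod, Fintype.card_prod]
    push_cast
    rfl
  rw [h2, h3, Finset.sum_comm]
  refine Finset.sum_congr rfl fun w' _ => ?_
  have h4 : ∀ w, ∑ β, ∑ β', push (prodGame I J) (ind x) (w, w') (β, β') ^ 2 /
        (((Fintype.card ι : ℝ) * Fintype.card ι') * (deg I w * deg J w')) =
      ∑ β', ∑ β, push (prodGame I J) (ind x) (w, w') (β, β') ^ 2 /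
        (((Fintype.card ι : ℝ) * Fintype.card ι') * (deg I w * deg J w')) :=
    fun w => Finset.sum_comm
  rw [Finset.sum_congr rfl fun w _ => h4 w, Finset.sum_comm]

theorem value_prod {U W Ω ι U' W' Ω' ι' : Type} [Fintype ι] [Nonempty ι] [Nonempty Ω] [Fintype ι']
    [Nonempty ι'] [Nonempty Ω'] (I : Game U W Ω ι) (J : Game U' W' Ω' ι') :
    I.value * J.value ≤ (prodGame I J).value := by
  classical
  have key : ∀ (x : U → Ω) (y : W → Ω) (x' : U' → Ω') (y' : W' → Ω'),
      I.satFrac x y * J.satFrac x' y' ≤ (prodGame I J).value := by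
    intro x y x' y'
    refine le_trans ?_ (le_value (prodGame I J) (fun u => (x u.1, x' u.2))
      (fun w => (y w.1, y' w.2)))
    rw [satFrac_eq, satFrac_eq, satFrac_eq, Fintype.expect_eq_sum_div_card,
      Fintype.expect_eq_sum_div_card, Fintype.expect_eq_sum_div_card, div_mul_div_comm,
      Fintype.card_prod, Finset.sum_mul_sum, Fintype.sum_prod_type]
    push_cast
    refine div_le_div_of_nonneg_right ?_ (by positivity)
    refine Finset.sum_le_sum fun e _ => Finset.sum_le_sum fun e' _ => ?_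
    by_cases h1 : I.perm e (x (I.src e)) = y (I.dst e)
    · by_cases h2 : J.perm e' (x' (J.src e')) = y' (J.dst e')
      · rw [if_pos h1, if_pos h2, if_pos, one_mul]
        simp only [prodGame, Equiv.prodCongr_apply, Prod.map_apply, Prod.mk.injEq]
        exact ⟨h1, h2⟩
      · rw [if_neg h2, mul_zero]
        split_ifs <;> norm_num
    · rw [if_neg h1, zero_mul]
      split_ifs <;> norm_num
  have h1 : ∀ (x' : U' → Ω') (y' : W' → Ω'),
      I.value * J.satFrac x' y' ≤ (prodGame I J).value := by
    intro x' y'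
    have h2 : I.value * J.satFrac x' y' =
        ⨆ p : (U → Ω) × (W → Ω), I.satFrac p.1 p.2 * J.satFrac x' y' :=
      Real.iSup_mul_of_nonneg (satFrac_nonneg J x' y') (fun p : (U → Ω) × (W → Ω) =>
        I.satFrac p.1 p.2)
    rw [h2]
    exact Real.iSup_le (fun p => key p.1 p.2 x' y') (value_nonneg _)
  have h3 : I.value * J.value =
      ⨆ p : (U' → Ω') × (W' → Ω'), I.value * J.satFrac p.1 p.2 :=
    Real.mul_iSup_of_nonneg (value_nonneg I) (fun p : (U' → Ω') × (W' → Ω') =>
      J.satFrac p.1 p.2)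
  rw [h3]
  exact Real.iSup_le (fun p => h1 p.1 p.2) (value_nonneg _)

end Pool.Agent.P325r
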