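import Mathlib

/-!
# P325r.Point (0.7 h): two mass distributions with large inner product

`f`, `g` are nonnegative functions on a finite set with largest values at `a` and `b`, sums `s`, `r`,
and `D = (s ^ 2 + r ^ 2) / 2 - ∑ i, f i * g i`.
`D_nonneg`: `∑ f g ≤ s r`.
`differ`: if `a ≠ b` then `∑ f g ≤ s r / 2`, hence `D ≥ (s ^ 2 + r ^ 2) / 4 ≥ max (f a) (g b) ^ 2 / 4`.
Proof of `∑ f g ≤ s r / 2`: if `g b ≤ r / 2` then all `g i ≤ r / 2` and `∑ f g ≤ s r / 2`. Otherwise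
`g i ≤ r - g b` for `i ≠ b` and `f b ≤ s / 2` (as `f b ≤ f a`, `a ≠ b`), so
`∑ f g ≤ (s - f b) (r - g b) + f b * g b = s (r - g b) + f b (2 g b - r) ≤ s (r - g b) + s / 2 (2 g b - r) = s r / 2`.
`same`: with `M = f a`, `K = g a`: `∑ f g ≤ M r`, `∑ f g ≤ K s`, so `D ≥ (s - r) ^ 2 / 2 + r (s - M)` and
`D ≥ (s - r) ^ 2 / 2 + s (r - K)`. Hence `(s + r) (s - M) = (s - r) (s - M) + 2 r (s - M) ≤ |s - r| s + 2 D`,
same for `(s + r) (r - K)`, and `|M ^ 2 - K ^ 2| ≤ (s + r) |M - K|`,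
`|M - K| ≤ |s - r| + max (s - M) (r - K)`.
-/

open Finset
open scoped BigOperators

namespace Pool.Agent.P325r

variable {Ω : Type} [Fintype Ω] [DecidableEq Ω]

theorem inner_le_mul (f g : Ω → ℝ) (hf : ∀ i, 0 ≤ f i) (hg : ∀ i, 0 ≤ g i) :
    ∑ i, f i * g i ≤ (∑ i, f i) * ∑ i, g i := by
  rw [Finset.sum_mul]
  refine Finset.sum_le_sum fun i _ => mul_le_mul_of_nonneg_left ?_ (hf i)
  exact Finset.single_le_sum (f := g) (fun j _ => hg j) (Finset.mem_univ i)

/-- The largest value bounds the inner product. -/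
theorem inner_le_max (f g : Ω → ℝ) (hg : ∀ i, 0 ≤ g i) (a : Ω) (ha : ∀ i, f i ≤ f a) :
    ∑ i, f i * g i ≤ f a * ∑ i, g i := by
  rw [Finset.mul_sum]
  exact Finset.sum_le_sum fun i _ => mul_le_mul_of_nonneg_right (ha i) (hg i)

theorem two_le_sum (f : Ω → ℝ) (hf : ∀ i, 0 ≤ f i) {a b : Ω} (hab : a ≠ b) :
    f a + f b ≤ ∑ i, f i := by
  rw [← Finset.sum_pair hab]
  exact Finset.sum_le_sum_of_subset_of_nonneg (Finset.subset_univ _) fun i _ _ => hf i

theorem one_le_sum (f : Ω → ℝ) (hf : ∀ i, 0 ≤ f i) (a : Ω) : f a ≤ ∑ i, f i :=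
  Finset.single_le_sum (f := f) (fun j _ => hf j) (Finset.mem_univ a)

theorem half_bound (f g : Ω → ℝ) (hf : ∀ i, 0 ≤ f i) (hg : ∀ i, 0 ≤ g i) (a b : Ω)
    (ha : ∀ i, f i ≤ f a) (hb : ∀ i, g i ≤ g b) (hab : a ≠ b) :
    ∑ i, f i * g i ≤ (∑ i, f i) * (∑ i, g i) / 2 := by
  obtain ⟨s, hs⟩ : ∃ s, s = ∑ i, f i := ⟨_, rfl⟩
  obtain ⟨r, hr⟩ : ∃ r, r = ∑ i, g i := ⟨_, rfl⟩
  rw [← hs, ← hr]
  have hs0 : 0 ≤ s := by
    rw [hs]
    exact Finset.sum_nonneg fun i _ => hf i
  by_cases h : g b ≤ r / 2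
  · calc ∑ i, f i * g i ≤ ∑ i, f i * (r / 2) :=
          Finset.sum_le_sum fun i _ => mul_le_mul_of_nonneg_left ((hb i).trans h) (hf i)
      _ = s * r / 2 := by
          rw [← Finset.sum_mul, ← hs]
          ring
  · push Not at h
    have h1 : ∀ i, i ≠ b → g i ≤ r - g b := by
      intro i hi
      have := two_le_sum g hg hi
      rw [← hr] at this
      linarith
    have h2 : f b ≤ s / 2 := by
      have h3 := two_le_sum f hf hab
      rw [← hs] at h3
      have h4 := ha b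
      linarith
    have h5 : ∑ i, f i * g i = f b * g b + ∑ i ∈ Finset.univ.erase b, f i * g i :=
      (Finset.add_sum_erase Finset.univ (fun i => f i * g i) (Finset.mem_univ b)).symm
    have h6 : s = f b + ∑ i ∈ Finset.univ.erase b, f i := by
      rw [hs]
      exact (Finset.add_sum_erase Finset.univ f (Finset.mem_univ b)).symm
    have h7 : ∑ i ∈ Finset.univ.erase b, f i * g i ≤ (s - f b) * (r - g b) := by
      calc ∑ i ∈ Finset.univ.erase b, f i * g i
          ≤ ∑ i ∈ Finset.univ.erase b, f i * (r - g b) := by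
            refine Finset.sum_le_sum fun i hi => mul_le_mul_of_nonneg_left ?_ (hf i)
            exact h1 i (Finset.ne_of_mem_erase hi)
        _ = (s - f b) * (r - g b) := by
            rw [← Finset.sum_mul]
            congr 1
            linarith
    have h8 : f b * (2 * g b - r) ≤ s / 2 * (2 * g b - r) :=
      mul_le_mul_of_nonneg_right h2 (by linarith)
    rw [h5]
    nlinarith

theorem differ (f g : Ω → ℝ) (hf : ∀ i, 0 ≤ f i) (hg : ∀ i, 0 ≤ g i) (a b : Ω)
    (ha : ∀ i, f i ≤ f a) (hb : ∀ i, g i ≤ g b) (hab : a ≠ b) :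
    max (f a ^ 2) (g b ^ 2) ≤
      4 * (((∑ i, f i) ^ 2 + (∑ i, g i) ^ 2) / 2 - ∑ i, f i * g i) := by
  have h1 := half_bound f g hf hg a b ha hb hab
  have h2 := one_le_sum f hf a
  have h3 := one_le_sum g hg b
  have h4 := hf a
  have h5 := hg b
  have h6 : f a ^ 2 ≤ (∑ i, f i) ^ 2 := pow_le_pow_left₀ h4 h2 2
  have h7 : g b ^ 2 ≤ (∑ i, g i) ^ 2 := pow_le_pow_left₀ h5 h3 2
  have h8 := sq_nonneg ((∑ i, f i) - ∑ i, g i)
  have h9 := sq_nonneg (∑ i, f i)
  have h10 := sq_nonneg (∑ i, g i)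
  apply max_le
  · nlinarith
  · nlinarith

theorem same (f g : Ω → ℝ) (hf : ∀ i, 0 ≤ f i) (hg : ∀ i, 0 ≤ g i) (a : Ω)
    (ha : ∀ i, f i ≤ f a) (hb : ∀ i, g i ≤ g a) :
    |f a ^ 2 - g a ^ 2| ≤
      2 * (((∑ i, f i) ^ 2 + (∑ i, g i) ^ 2) / 2 - ∑ i, f i * g i) +
        2 * (((∑ i, f i) + ∑ i, g i) * |(∑ i, f i) - ∑ i, g i|) := by
  have h1 := inner_le_max f g hg a ha
  have h2 : ∑ i, f i * g i ≤ g a * ∑ i, f i := by
    have := inner_le_max g f hf a hb
    calc ∑ i, f i * g i = ∑ i, g i * f i := Finset.sum_congr rfl fun i _ => mul_comm _ _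
      _ ≤ _ := this
  have h3 := one_le_sum f hf a
  have h4 := one_le_sum g hg a
  have h5 := hf a
  have h6 := hg a
  generalize (∑ i, f i * g i) = P at *
  generalize (∑ i, f i) = s at *
  generalize (∑ i, g i) = r at *
  generalize f a = M at *
  generalize g a = K at *
  have e1 : s - r ≤ |s - r| := le_abs_self _
  have e2 : -(s - r) ≤ |s - r| := neg_le_abs _
  have e0 : 0 ≤ |s - r| := abs_nonneg _
  generalize |s - r| = A at *
  have hD : 0 ≤ (s - r) ^ 2 := sq_nonneg _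
  -- the two bounds
  have c1 : (s + r) * (s - M) ≤ A * s + 2 * ((s ^ 2 + r ^ 2) / 2 - P) := by
    have t1 : (s - r) * (s - M) ≤ A * (s - M) := mul_le_mul_of_nonneg_right e1 (by linarith)
    have t2 : A * (s - M) ≤ A * s := mul_le_mul_of_nonneg_left (by linarith) e0
    nlinarith
  have c2 : (s + r) * (r - K) ≤ A * r + 2 * ((s ^ 2 + r ^ 2) / 2 - P) := by
    have t1 : -(s - r) * (r - K) ≤ A * (r - K) := mul_le_mul_of_nonneg_right e2 (by linarith)
    have t2 : A * (r - K) ≤ A * r := mul_le_mul_of_nonneg_left (by linarith) e0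
    nlinarith
  have hs : 0 ≤ s := by linarith
  have hr : 0 ≤ r := by linarith
  have hAs : 0 ≤ A * s := mul_nonneg e0 hs
  have hAr : 0 ≤ A * r := mul_nonneg e0 hr
  rw [abs_le]
  constructor
  · -- K ^ 2 - M ^ 2
    rcases le_total M K with hMK | hMK
    · have t3 : (M + K) * (K - M) ≤ (s + r) * (K - M) :=
        mul_le_mul_of_nonneg_right (by linarith) (by linarith)
      have t4 : (s + r) * (K - M) ≤ (s + r) * (A + (s - M)) :=
        mul_le_mul_of_nonneg_left (by linarith) (by linarith)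
      nlinarith
    · have t3 : 0 ≤ (M + K) * (M - K) := mul_nonneg (by linarith) (by linarith)
      have t5 : 0 ≤ (s + r) * (s - M) := mul_nonneg (by linarith) (by linarith)
      nlinarith
  · rcases le_total K M with hMK | hMK
    · have t3 : (M + K) * (M - K) ≤ (s + r) * (M - K) :=
        mul_le_mul_of_nonneg_right (by linarith) (by linarith)
      have t4 : (s + r) * (M - K) ≤ (s + r) * (A + (r - K)) :=
        mul_le_mul_of_nonneg_left (by linarith) (by linarith)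
      nlinarith
    · have t3 : 0 ≤ (M + K) * (K - M) := mul_nonneg (by linarith) (by linarith)
      have t5 : 0 ≤ (s + r) * (r - K) := mul_nonneg (by linarith) (by linarith)
      nlinarith

end Pool.Agent.P325r
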