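import Mathlib
import Pool.Agent.Lib.P325r.Point
import Pool.Agent.Lib.P325f1f.Amen.Rounds

/-!
# P325r.Pair (1.2 h): correlated sampling of two vertices

`f z`, `g z` are nonnegative functions on the labels, `∑ z, (∑ i, f z i) ^ 2 ≤ 1`, the same for `g`;
`a z`, `b z` are labels of largest mass. A seed is a pair `(z, j)`, `j < K`; the vertex with masses `f`
chooses the label `a z` if `j < K * f z (a z) ^ 2` and nothing otherwise (`cho`). `γ = 1 - ∑ z ∑ i f g`.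

`cho_some`: the number of `j < K` with `j < K t` is at least `K t` (`0 ≤ t ≤ 1`), so a seed is successful
with probability at least `(∑ z, f z (a z) ^ 2) / |Z|`.
`mass_ge`: `f z (a z) * ∑ i, g z i ≥ ∑ i, f z i * g z i` (`inner_le_max`), Cauchy-Schwarz:
`(1 - γ) ^ 2 ≤ (∑ z, f z (a z) ^ 2) * 1`.
`cho_bad`: for `a z = b z` the seeds `(z, j)` that are good for exactly one of the two number at most
`K |f z (a z) ^ 2 - g z (a z) ^ 2| + 1`; for `a z ≠ b z` at most `K max + 1` seeds are good for one of them.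
By `differ`, `same` (sum over `z`; `D z` = deficit at `z`, `∑ D ≤ γ`; `∑ z, (s + r) |s - r| ≤
√(∑ (s + r) ^ 2) √(∑ (s - r) ^ 2) ≤ 2 √(2 γ)`, where `(s - r) ^ 2 ≤ 2 D` by `inner_le_mul`) the bad seeds have
probability at most `(4 γ + 4 √(2 γ) + |Z| / K) / |Z| ≤ (12 √γ + |Z| / K) / |Z|` (`0 ≤ γ ≤ 1`).
`pair`: if `γ > 1/4` the bound is at least `1`. If `γ ≤ 1/4` then `∑ z, f z (a z) ^ 2 ≥ (3/4) ^ 2 ≥ 1/2`; apply
`rounds` with `π = id`, `p = 1 / (2 |Z|)`, `L = 24 √γ + 2 |Z| / K`.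
The version with permutations: apply everything to `f z ∘ π.symm`, `g z ∘ π'.symm` (that is `pair_perm`).
-/

open Finset
open scoped BigOperators

namespace Pool.Agent.P325r

open Pool.Agent.P325f1f.Amen

variable {Ω Z : Type} [Fintype Ω] [DecidableEq Ω] [Fintype Z]

/-- The label chosen from the seed `(z, j)`. -/
noncomputable def cho (K : ℕ) (f : Z → Ω → ℝ) (a : Z → Ω) (θ : Z × Fin K) : Option Ω := by
  classical
  exact if ((θ.2 : ℕ) : ℝ) < K * f θ.1 (a θ.1) ^ 2 then some (a θ.1) else none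

namespace PairAux

theorem count_ge (K : ℕ) {t : ℝ} (ht : t ≤ 1) :
    (K : ℝ) * t ≤ ∑ j : Fin K, if ((j : ℕ) : ℝ) < K * t then (1 : ℝ) else 0 := by
  rw [Fin.sum_univ_eq_sum_range (fun j => if (j : ℝ) < K * t then (1 : ℝ) else 0) K]
  have h1 : ⌈(K : ℝ) * t⌉₊ ≤ K := by
    rw [Nat.ceil_le]
    have : (0 : ℝ) ≤ K := Nat.cast_nonneg K
    nlinarith
  calc (K : ℝ) * t ≤ (⌈(K : ℝ) * t⌉₊ : ℝ) := Nat.le_ceil _
    _ = ∑ j ∈ range ⌈(K : ℝ) * t⌉₊, (1 : ℝ) := by simp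
    _ = ∑ j ∈ range ⌈(K : ℝ) * t⌉₊, (if (j : ℝ) < K * t then (1 : ℝ) else 0) := by
        refine Finset.sum_congr rfl fun j hj => ?_
        rw [if_pos (Nat.lt_ceil.1 (Finset.mem_range.1 hj))]
    _ ≤ ∑ j ∈ range K, (if (j : ℝ) < K * t then (1 : ℝ) else 0) := by
        refine Finset.sum_le_sum_of_subset_of_nonneg
          (Finset.range_subset_range.2 h1) fun j _ _ => ?_
        split_ifs <;> norm_num

theorem count_le (K : ℕ) {x y : ℝ} (hx : 0 ≤ x) (hxy : x ≤ y) :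
    (∑ j : Fin K, if x ≤ ((j : ℕ) : ℝ) ∧ ((j : ℕ) : ℝ) < y then (1 : ℝ) else 0) ≤ y - x + 1 := by
  rw [Fin.sum_univ_eq_sum_range (fun j => if x ≤ (j : ℝ) ∧ (j : ℝ) < y then (1 : ℝ) else 0) K,
    ← Finset.sum_filter, Finset.sum_const, nsmul_eq_mul, mul_one]
  have h1 : (Finset.range K).filter (fun j : ℕ => x ≤ (j : ℝ) ∧ (j : ℝ) < y) ⊆
      Finset.Ico ⌈x⌉₊ ⌈y⌉₊ := by
    intro j hj
    rw [Finset.mem_filter] at hj
    rw [Finset.mem_Ico]
    exact ⟨Nat.ceil_le.2 hj.2.1, Nat.lt_ceil.2 hj.2.2⟩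
  have h2 := Finset.card_le_card h1
  rw [Nat.card_Ico] at h2
  have h3 : ⌈x⌉₊ ≤ ⌈y⌉₊ := Nat.ceil_mono hxy
  have h4 : (((Finset.range K).filter (fun j : ℕ => x ≤ (j : ℝ) ∧ (j : ℝ) < y)).card : ℝ) ≤
      (⌈y⌉₊ : ℝ) - (⌈x⌉₊ : ℝ) := by
    rw [← Nat.cast_sub h3]
    exact_mod_cast h2
  have h5 := Nat.ceil_lt_add_one (hx.trans hxy)
  have h6 := Nat.le_ceil x
  linarith

end PairAux

open PairAux

section

variable (K : ℕ) (f g : Z → Ω → ℝ) (a b : Z → Ω)

/-- The seed `θ` is good for both: no label for both or the same label. -/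
def Agr (θ : Z × Fin K) : Prop :=
  (cho K f a θ = none ∧ cho K g b θ = none) ∨ (∃ ω, cho K f a θ = some ω ∧ cho K g b θ = some ω)

end

namespace PairAux

open Classical in
theorem cho_pos (K : ℕ) (f : Z → Ω → ℝ) (a : Z → Ω) {z : Z} {j : Fin K}
    (h : ((j : ℕ) : ℝ) < K * f z (a z) ^ 2) : cho K f a (z, j) = some (a z) := by
  unfold cho
  exact if_pos h

theorem cho_neg (K : ℕ) (f : Z → Ω → ℝ) (a : Z → Ω) {z : Z} {j : Fin K}
    (h : ¬ ((j : ℕ) : ℝ) < K * f z (a z) ^ 2) : cho K f a (z, j) = none := by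
  unfold cho
  exact if_neg h

/-- the number of bad seeds over `z` -/
theorem bad_point (K : ℕ) (f g : Z → Ω → ℝ) (hf : ∀ z i, 0 ≤ f z i) (hg : ∀ z i, 0 ≤ g z i)
    (a b : Z → Ω) (ha : ∀ z i, f z i ≤ f z (a z)) (hb : ∀ z i, g z i ≤ g z (b z)) (z : Z)
    [∀ θ, Decidable (Agr K f g a b θ)] :
    (∑ j : Fin K, if Agr K f g a b (z, j) then (0 : ℝ) else 1) ≤
      K * (4 * (((∑ i, f z i) ^ 2 + (∑ i, g z i) ^ 2) / 2 - ∑ i, f z i * g z i) +
        2 * (((∑ i, f z i) + ∑ i, g z i) * |(∑ i, f z i) - ∑ i, g z i|)) + 1 := by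
  set s := ∑ i, f z i with hs
  set r := ∑ i, g z i with hr
  set D := (s ^ 2 + r ^ 2) / 2 - ∑ i, f z i * g z i with hD
  have hs0 : 0 ≤ s := Finset.sum_nonneg fun i _ => hf z i
  have hr0 : 0 ≤ r := Finset.sum_nonneg fun i _ => hg z i
  have hD0 : 0 ≤ D := by
    have h1 := inner_le_mul (f z) (g z) (hf z) (hg z)
    rw [← hs, ← hr] at h1
    nlinarith [sq_nonneg (s - r)]
  have hK : (0 : ℝ) ≤ K := Nat.cast_nonneg K
  have hE : 0 ≤ (s + r) * |s - r| := mul_nonneg (by linarith) (abs_nonneg _)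
  -- the bad seeds lie between two numbers
  obtain ⟨x, y, hx, hxy, hB, hbad⟩ : ∃ x y : ℝ, 0 ≤ x ∧ x ≤ y ∧
      y - x ≤ K * (4 * D + 2 * ((s + r) * |s - r|)) ∧
      ∀ j : Fin K, ¬ Agr K f g a b (z, j) → x ≤ ((j : ℕ) : ℝ) ∧ ((j : ℕ) : ℝ) < y := by
    by_cases hab : a z = b z
    · have h1 := same (f z) (g z) (hf z) (hg z) (a z) (ha z) (by rw [hab]; exact hb z)
      rw [← hs, ← hr, ← hD] at h1
      have hF : 0 ≤ f z (a z) ^ 2 := sq_nonneg _
      have hG : 0 ≤ g z (b z) ^ 2 := sq_nonneg _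
      refine ⟨K * min (f z (a z) ^ 2) (g z (b z) ^ 2), K * max (f z (a z) ^ 2) (g z (b z) ^ 2),
        mul_nonneg hK (le_min hF hG), mul_le_mul_of_nonneg_left min_le_max hK, ?_, ?_⟩
      · rw [← mul_sub, max_sub_min_eq_abs, ← hab]
        apply mul_le_mul_of_nonneg_left _ hK
        rw [abs_sub_comm]
        linarith
      · intro j hj
        rw [mul_min_of_nonneg _ _ hK, mul_max_of_nonneg _ _ hK]
        by_cases h2 : ((j : ℕ) : ℝ) < K * f z (a z) ^ 2
        · by_cases h3 : ((j : ℕ) : ℝ) < K * g z (b z) ^ 2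
          · exfalso
            apply hj
            right
            exact ⟨a z, cho_pos K f a h2, by rw [cho_pos K g b h3, hab]⟩
          · exact ⟨(min_le_right _ _).trans (not_lt.1 h3), lt_of_lt_of_le h2 (le_max_left _ _)⟩
        · by_cases h3 : ((j : ℕ) : ℝ) < K * g z (b z) ^ 2
          · exact ⟨(min_le_left _ _).trans (not_lt.1 h2), lt_of_lt_of_le h3 (le_max_right _ _)⟩
          · exfalso
            apply hj
            left
            exact ⟨cho_neg K f a h2, cho_neg K g b h3⟩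
    · have h1 := differ (f z) (g z) (hf z) (hg z) (a z) (b z) (ha z) (hb z) hab
      rw [← hs, ← hr, ← hD] at h1
      refine ⟨0, K * max (f z (a z) ^ 2) (g z (b z) ^ 2), le_rfl,
        mul_nonneg hK (le_max_of_le_left (sq_nonneg _)), ?_, ?_⟩
      · rw [sub_zero]
        apply mul_le_mul_of_nonneg_left _ hK
        linarith
      · intro j hj
        refine ⟨Nat.cast_nonneg _, ?_⟩
        rw [mul_max_of_nonneg _ _ hK]
        by_cases h2 : ((j : ℕ) : ℝ) < K * f z (a z) ^ 2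
        · exact lt_of_lt_of_le h2 (le_max_left _ _)
        · by_cases h3 : ((j : ℕ) : ℝ) < K * g z (b z) ^ 2
          · exact lt_of_lt_of_le h3 (le_max_right _ _)
          · exfalso
            apply hj
            left
            exact ⟨cho_neg K f a h2, cho_neg K g b h3⟩
  calc (∑ j : Fin K, if Agr K f g a b (z, j) then (0 : ℝ) else 1)
      ≤ ∑ j : Fin K, if x ≤ ((j : ℕ) : ℝ) ∧ ((j : ℕ) : ℝ) < y then (1 : ℝ) else 0 := by
        refine Finset.sum_le_sum fun j _ => ?_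
        by_cases h : Agr K f g a b (z, j)
        · rw [if_pos h]
          split_ifs <;> norm_num
        · rw [if_neg h, if_pos (hbad j h)]
    _ ≤ y - x + 1 := count_le K hx hxy
    _ ≤ _ := by linarith

/-- the sum of the products -/
theorem cs_bound (s r D : Z → ℝ) (γ : ℝ) (hs0 : ∀ z, 0 ≤ s z) (hr0 : ∀ z, 0 ≤ r z)
    (hs : ∑ z, s z ^ 2 ≤ 1) (hr : ∑ z, r z ^ 2 ≤ 1) (hD : ∀ z, (s z - r z) ^ 2 ≤ 2 * D z)
    (hγ : ∑ z, D z ≤ γ) : ∑ z, (s z + r z) * |s z - r z| ≤ 3 * √γ := by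
  have hD0 : 0 ≤ ∑ z, D z := Finset.sum_nonneg fun z _ => by
    have := hD z
    nlinarith [sq_nonneg (s z - r z)]
  have hγ0 : 0 ≤ γ := hD0.trans hγ
  have h1 := Finset.sum_mul_sq_le_sq_mul_sq Finset.univ (fun z => s z + r z)
    (fun z => |s z - r z|)
  have h2 : ∑ z, (s z + r z) ^ 2 ≤ 4 := by
    calc ∑ z, (s z + r z) ^ 2 ≤ ∑ z, (2 * s z ^ 2 + 2 * r z ^ 2) :=
          Finset.sum_le_sum fun z _ => by nlinarith [sq_nonneg (s z - r z)]
      _ = 2 * ∑ z, s z ^ 2 + 2 * ∑ z, r z ^ 2 := by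
          rw [Finset.sum_add_distrib, Finset.mul_sum, Finset.mul_sum]
      _ ≤ 4 := by linarith
  have h3 : ∑ z, |s z - r z| ^ 2 ≤ 2 * γ := by
    calc ∑ z, |s z - r z| ^ 2 ≤ ∑ z, 2 * D z :=
          Finset.sum_le_sum fun z _ => by rw [sq_abs]; exact hD z
      _ = 2 * ∑ z, D z := by rw [Finset.mul_sum]
      _ ≤ 2 * γ := by linarith
  have h4 : (∑ z, (s z + r z) * |s z - r z|) ^ 2 ≤ 8 * γ := by
    refine h1.trans ?_
    have h5 : 0 ≤ ∑ z, |s z - r z| ^ 2 := Finset.sum_nonneg fun z _ => sq_nonneg _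
    calc (∑ z, (s z + r z) ^ 2) * ∑ z, |s z - r z| ^ 2 ≤ 4 * (2 * γ) :=
          mul_le_mul h2 h3 h5 (by norm_num)
      _ = 8 * γ := by ring
  have h6 : 0 ≤ ∑ z, (s z + r z) * |s z - r z| := Finset.sum_nonneg fun z _ =>
    mul_nonneg (add_nonneg (hs0 z) (hr0 z)) (abs_nonneg _)
  have h7 : (3 * √γ) ^ 2 = 9 * γ := by
    rw [mul_pow, Real.sq_sqrt hγ0]
    norm_num
  exact (pow_le_pow_iff_left₀ h6 (by positivity) two_ne_zero).1 (by rw [h7]; linarith)

end PairAux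

theorem pair [Nonempty Z] (K : ℕ) (hK : 0 < K) (f g : Z → Ω → ℝ) (hf : ∀ z i, 0 ≤ f z i)
    (hg : ∀ z i, 0 ≤ g z i) (hf1 : ∑ z, (∑ i, f z i) ^ 2 ≤ 1) (hg1 : ∑ z, (∑ i, g z i) ^ 2 ≤ 1)
    (a b : Z → Ω) (ha : ∀ z i, f z i ≤ f z (a z)) (hb : ∀ z i, g z i ≤ g z (b z)) (o o' : Ω) (n : ℕ) :
    (𝔼 ρ : Fin n → Z × Fin K, if lab (cho K f a) o n ρ = lab (cho K g b) o' n ρ
      then (0 : ℝ) else 1) ≤ 24 * √(1 - ∑ z, ∑ i, f z i * g z i) + 2 * Fintype.card Z / K +
        (1 - 1 / (2 * Fintype.card Z)) ^ n := by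
  classical
  have hNK : Nonempty (Fin K) := ⟨⟨0, hK⟩⟩
  obtain ⟨γ, hγ⟩ : ∃ γ, γ = 1 - ∑ z, ∑ i, f z i * g z i := ⟨_, rfl⟩
  obtain ⟨c, hc⟩ : ∃ c : ℝ, c = Fintype.card Z := ⟨_, rfl⟩
  have hc1 : 1 ≤ c := by
    rw [hc]
    exact_mod_cast Fintype.card_pos
  have hc0 : 0 < c := by linarith
  have hK0 : (0 : ℝ) < K := by exact_mod_cast hK
  rw [← hγ, ← hc]
  obtain ⟨s, hs⟩ : ∃ s : Z → ℝ, ∀ z, s z = ∑ i, f z i := ⟨_, fun z => rfl⟩
  obtain ⟨r, hr⟩ : ∃ r : Z → ℝ, ∀ z, r z = ∑ i, g z i := ⟨_, fun z => rfl⟩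
  obtain ⟨D, hD⟩ : ∃ D : Z → ℝ, ∀ z, D z = (s z ^ 2 + r z ^ 2) / 2 - ∑ i, f z i * g z i :=
    ⟨_, fun z => rfl⟩
  have hs0 : ∀ z, 0 ≤ s z := fun z => by rw [hs]; exact Finset.sum_nonneg fun i _ => hf z i
  have hr0 : ∀ z, 0 ≤ r z := fun z => by rw [hr]; exact Finset.sum_nonneg fun i _ => hg z i
  simp only [← hs] at hf1
  simp only [← hr] at hg1
  have hsr : ∀ z, ∑ i, f z i * g z i ≤ s z * r z := fun z => by
    rw [hs, hr]
    exact inner_le_mul (f z) (g z) (hf z) (hg z)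
  have hDs : ∀ z, (s z - r z) ^ 2 ≤ 2 * D z := fun z => by
    have := hsr z
    rw [hD]
    nlinarith
  have hDsum : ∑ z, D z ≤ γ := by
    have e : ∑ z, D z = (∑ z, s z ^ 2 + ∑ z, r z ^ 2) / 2 - ∑ z, ∑ i, f z i * g z i := by
      simp only [hD]
      rw [Finset.sum_sub_distrib, ← Finset.sum_div, Finset.sum_add_distrib]
    rw [e, hγ]
    linarith
  have hD0 : 0 ≤ ∑ z, D z := Finset.sum_nonneg fun z _ => by
    have := hDs z
    nlinarith [sq_nonneg (s z - r z)]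
  have hγ0 : 0 ≤ γ := hD0.trans hDsum
  have hγ1 : γ ≤ 1 := by
    rw [hγ]
    have : 0 ≤ ∑ z, ∑ i, f z i * g z i := Finset.sum_nonneg fun z _ =>
      Finset.sum_nonneg fun i _ => mul_nonneg (hf z i) (hg z i)
    linarith
  have hp0 : 0 ≤ 1 - 1 / (2 * c) := by
    have : 1 / (2 * c) ≤ 1 := by
      rw [div_le_one (by linarith)]
      linarith
    linarith
  have hpn : 0 ≤ (1 - 1 / (2 * c)) ^ n := pow_nonneg hp0 n
  have hcK : 0 ≤ 2 * c / K := by positivity
  rcases le_or_gt γ (1 / 4) with h14 | h14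
  swap
  · have h1 : (𝔼 ρ : Fin n → Z × Fin K, if lab (cho K f a) o n ρ = lab (cho K g b) o' n ρ
        then (0 : ℝ) else 1) ≤ 1 :=
      Finset.expect_le Finset.univ_nonempty (fun θ _ => by split_ifs <;> norm_num)
    have h2 : 1 / 2 ≤ √γ := by
      apply Real.le_sqrt_of_sq_le
      linarith
    linarith
  -- the main case
  have hcard : (Fintype.card (Z × Fin K) : ℝ) = c * K := by
    rw [Fintype.card_prod, Fintype.card_fin, Nat.cast_mul, hc]
  -- success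
  have hmass : 1 / 2 ≤ ∑ z, f z (a z) ^ 2 := by
    have h1 : 1 - γ ≤ ∑ z, f z (a z) * r z := by
      have e : 1 - γ = ∑ z, ∑ i, f z i * g z i := by rw [hγ]; ring
      rw [e]
      refine Finset.sum_le_sum fun z _ => ?_
      rw [hr]
      exact inner_le_max (f z) (g z) (hg z) (a z) (ha z)
    have h2 := Finset.sum_mul_sq_le_sq_mul_sq Finset.univ (fun z => f z (a z)) (fun z => r z)
    have h3 : 0 ≤ ∑ z, f z (a z) ^ 2 := Finset.sum_nonneg fun z _ => sq_nonneg _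
    have h4 : (∑ z, f z (a z) ^ 2) * ∑ z, r z ^ 2 ≤ (∑ z, f z (a z) ^ 2) * 1 :=
      mul_le_mul_of_nonneg_left hg1 h3
    have h5 : (1 - γ) ^ 2 ≤ (∑ z, f z (a z) * r z) ^ 2 :=
      pow_le_pow_left₀ (by linarith) h1 2
    nlinarith
  have hP : 1 / (2 * c) ≤ 𝔼 θ : Z × Fin K, if cho K f a θ = none then (0 : ℝ) else 1 := by
    rw [Fintype.expect_eq_sum_div_card, hcard, Fintype.sum_prod_type]
    have h1 : ∀ z, (K : ℝ) * f z (a z) ^ 2 ≤
        ∑ j : Fin K, if cho K f a (z, j) = none then (0 : ℝ) else 1 := by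
      intro z
      have h2 : f z (a z) ^ 2 ≤ 1 := by
        have h3 : f z (a z) ≤ s z := by
          rw [hs]
          exact Finset.single_le_sum (fun i _ => hf z i) (Finset.mem_univ _)
        have h4 : s z ^ 2 ≤ ∑ z, s z ^ 2 :=
          Finset.single_le_sum (f := fun z => s z ^ 2) (fun z _ => sq_nonneg _)
            (Finset.mem_univ z)
        have h5 : f z (a z) ^ 2 ≤ s z ^ 2 := pow_le_pow_left₀ (hf z _) h3 2
        linarith
      refine (count_ge K h2).trans (le_of_eq ?_)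
      refine Finset.sum_congr rfl fun j _ => ?_
      by_cases h3 : ((j : ℕ) : ℝ) < K * f z (a z) ^ 2
      · rw [if_pos h3, cho_pos K f a h3]
        simp
      · rw [if_neg h3, cho_neg K f a h3]
        simp
    rw [le_div_iff₀ (by positivity)]
    have h6 : (K : ℝ) * ∑ z, f z (a z) ^ 2 ≤
        ∑ z, ∑ j : Fin K, if cho K f a (z, j) = none then (0 : ℝ) else 1 := by
      rw [Finset.mul_sum]
      exact Finset.sum_le_sum fun z _ => h1 z
    refine le_trans ?_ h6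
    have e : 1 / (2 * c) * (c * K) = K * (1 / 2) := by
      field_simp
    rw [e]
    exact mul_le_mul_of_nonneg_left hmass hK0.le
  -- the bad seeds
  have hbad : (𝔼 θ : Z × Fin K, if (cho K f a θ = none ∧ cho K g b θ = none) ∨
      (∃ ω, cho K f a θ = some ω ∧ cho K g b θ = some (id ω)) then (0 : ℝ) else 1) ≤
      (24 * √γ + 2 * c / K) * (1 / (2 * c)) := by
    have e0 : (𝔼 θ : Z × Fin K, if (cho K f a θ = none ∧ cho K g b θ = none) ∨
        (∃ ω, cho K f a θ = some ω ∧ cho K g b θ = some (id ω)) then (0 : ℝ) else 1) =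
        𝔼 θ : Z × Fin K, if Agr K f g a b θ then (0 : ℝ) else 1 :=
      Finset.expect_congr rfl (fun θ _ => if_congr Iff.rfl rfl rfl)
    rw [e0, Fintype.expect_eq_sum_div_card, hcard, Fintype.sum_prod_type,
      div_le_iff₀ (by positivity)]
    have h1 : ∀ z, (∑ j : Fin K, if Agr K f g a b (z, j) then (0 : ℝ) else 1) ≤
        K * (4 * D z + 2 * ((s z + r z) * |s z - r z|)) + 1 := by
      intro z
      have h2 := bad_point K f g hf hg a b ha hb z
      rw [← hs, ← hr, ← hD] at h2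
      exact h2
    have h3 := cs_bound s r D γ hs0 hr0 hf1 hg1 hDs hDsum
    calc (∑ z, ∑ j : Fin K, if Agr K f g a b (z, j) then (0 : ℝ) else 1)
        ≤ ∑ z, (K * (4 * D z + 2 * ((s z + r z) * |s z - r z|)) + 1) :=
          Finset.sum_le_sum fun z _ => h1 z
      _ = K * (4 * ∑ z, D z + 2 * ∑ z, (s z + r z) * |s z - r z|) + c := by
          rw [Finset.sum_add_distrib, ← Finset.mul_sum, Finset.sum_add_distrib,
            ← Finset.mul_sum, ← Finset.mul_sum, Finset.sum_const, nsmul_eq_mul, mul_one,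
            Finset.card_univ, hc]
      _ ≤ K * (12 * √γ) + c := by
          have h4 : γ ≤ √γ := by
            apply Real.le_sqrt_of_sq_le
            nlinarith
          have h5 : 4 * ∑ z, D z + 2 * ∑ z, (s z + r z) * |s z - r z| ≤ 12 * √γ := by
            linarith [Real.sqrt_nonneg γ]
          have := mul_le_mul_of_nonneg_left h5 hK0.le
          linarith
      _ = (24 * √γ + 2 * c / K) * (1 / (2 * c)) * (c * K) := by
          field_simp
          ring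
  have hfin := rounds (cho K f a) (cho K g b) id o o' (1 / (2 * c)) (24 * √γ + 2 * c / K)
    (by positivity) (by positivity) hP hbad n
  exact hfin

namespace PairAux

theorem lab_map {Θ : Type} (P : Θ → Option Ω) (π : Ω → Ω) (o : Ω) (n : ℕ) (ρ : Fin n → Θ) :
    lab (fun θ => (P θ).map π) (π o) n ρ = π (lab P o n ρ) := by
  induction n with
  | zero => rfl
  | succ n ih =>
    rw [lab, lab, ih]
    cases P (ρ 0) <;> rfl

theorem cho_map (K : ℕ) (f : Z → Ω → ℝ) (a : Z → Ω) (π : Equiv.Perm Ω) :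
    cho K (fun z β => f z (π.symm β)) (fun z => π (a z)) = fun θ => (cho K f a θ).map π := by
  funext θ
  unfold cho
  simp only [Equiv.symm_apply_apply]
  split_ifs <;> rfl

end PairAux

/-- The version with two permutations. -/
theorem pair_perm [Nonempty Z] (K : ℕ) (hK : 0 < K) (f g : Z → Ω → ℝ) (hf : ∀ z i, 0 ≤ f z i)
    (hg : ∀ z i, 0 ≤ g z i) (hf1 : ∑ z, (∑ i, f z i) ^ 2 ≤ 1) (hg1 : ∑ z, (∑ i, g z i) ^ 2 ≤ 1)
    (a b : Z → Ω) (ha : ∀ z i, f z i ≤ f z (a z)) (hb : ∀ z i, g z i ≤ g z (b z)) (o o' : Ω) (n : ℕ)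
    (π π' : Equiv.Perm Ω) :
    (𝔼 ρ : Fin n → Z × Fin K, if π (lab (cho K f a) o n ρ) = π' (lab (cho K g b) o' n ρ)
      then (0 : ℝ) else 1) ≤
        24 * √(1 - ∑ z, ∑ β, f z (π.symm β) * g z (π'.symm β)) + 2 * Fintype.card Z / K +
          (1 - 1 / (2 * Fintype.card Z)) ^ n := by
  have h := pair K hK (fun z β => f z (π.symm β)) (fun z β => g z (π'.symm β))
    (fun z i => hf z _) (fun z i => hg z _)
    (by
      refine le_trans (le_of_eq ?_) hf1
      refine Finset.sum_congr rfl fun z _ => ?_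
      rw [Equiv.sum_comp π.symm (f z)])
    (by
      refine le_trans (le_of_eq ?_) hg1
      refine Finset.sum_congr rfl fun z _ => ?_
      rw [Equiv.sum_comp π'.symm (g z)])
    (fun z => π (a z)) (fun z => π' (b z))
    (fun z i => by simpa using ha z (π.symm i)) (fun z i => by simpa using hb z (π'.symm i))
    (π o) (π' o') n
  rw [cho_map, cho_map] at h
  simp only [lab_map] at h
  exact h

end Pool.Agent.P325r
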