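import Mathlib
import Pool.Agent.Lib.P325r.Basic
import Pool.Agent.Lib.P325r.Pair

/-!
# P325r.Round (1 h): rounding a feasible family

Let `N = ∑ z, form I (f z) = ∑ e e', wt e e' * t e e'` with `t e e' = ∑ z, corr I (f z) e e'` (`form_eq`),
`t ≤ 1` (Cauchy-Schwarz, or `inner_le_mul` and `2 s r ≤ s ^ 2 + r ^ 2`), so with `γ = 1 - N`:
`0 ≤ γ = ∑ wt (1 - t)` (`wt_sum`). Choose for every `z`, `u` a label `a u z` with largest mass
(`Finset.exists_max_image`; `Ω` nonempty). For `K`, `n` and `ρ : Fin n → Z × Fin K` let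
`x ρ u = lab (cho K (fun z => f z u) (a u)) o n ρ`. By `pair_perm` (with `π = I.perm e`, `π' = I.perm e'`)
`𝔼 ρ, form I (ind (x ρ)) = 𝔼 ρ, ∑ wt [agree] = 1 - ∑ wt P(disagree) ≥ 1 - ∑ wt 24 √(1 - t) - err ≥ 1 - 24 √γ - err`
(`form_eq`, `corr_ind`, concavity of the square root: `∑ wt √g ≤ √(∑ wt g)` as `∑ wt = 1`, by Cauchy-Schwarz
or `Real.inner_le_...`), where `err = 2 |Z| / K + (1 - 1 / (2 |Z|)) ^ n` is as small as we please. As
`form I (ind x) ≤ coll I`: `1 - coll I ≤ 24 √γ`, that is `((1 - coll I) / 24) ^ 2 ≤ γ`.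
If `Z` is empty the sum is `0` and the bound holds since `((1 - coll) / 24) ^ 2 ≤ 1`.
-/

open Finset
open scoped BigOperators

namespace Pool.Agent.P325r

open Pool.Agent.P325f1f.Dich Pool.Agent.P325f1f.Amen

namespace Round

variable {U W Ω ι : Type} [DecidableEq W] [Fintype W] [Fintype Ω] [DecidableEq Ω] [Fintype ι]

omit [DecidableEq W] [Fintype W] [DecidableEq Ω] [Fintype ι] in
lemma corr_le (I : Game U W Ω ι) (f : U → Ω → ℝ) (hf : ∀ u α, 0 ≤ f u α) (e e' : ι) :
    corr I f e e' ≤ (∑ α, f (I.src e) α) * ∑ α, f (I.src e') α := by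
  unfold corr
  have h1 : ∑ α, f (I.src e') α = ∑ β, f (I.src e') ((I.perm e').symm β) :=
    (Equiv.sum_comp (I.perm e').symm (fun α => f (I.src e') α)).symm
  have h2 : ∑ α, f (I.src e) α = ∑ β, f (I.src e) ((I.perm e).symm β) :=
    (Equiv.sum_comp (I.perm e).symm (fun α => f (I.src e) α)).symm
  rw [h1, h2, Finset.sum_mul]
  apply Finset.sum_le_sum
  intro β _
  apply mul_le_mul_of_nonneg_left _ (hf _ _)
  exact Finset.single_le_sum (f := fun β => f (I.src e') ((I.perm e').symm β))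
    (fun i _ => hf _ _) (Finset.mem_univ β)

omit [DecidableEq W] [Fintype W] [DecidableEq Ω] [Fintype ι] in
lemma tot_le_one (I : Game U W Ω ι) {Z : Type} [Fintype Z] (f : Z → U → Ω → ℝ) (hf : Feas f)
    (e e' : ι) : ∑ z, corr I (f z) e e' ≤ 1 := by
  have h1 : ∀ z, corr I (f z) e e' ≤
      ((∑ α, f z (I.src e) α) ^ 2 + (∑ α, f z (I.src e') α) ^ 2) / 2 := by
    intro z
    have h2 := corr_le I (f z) (hf.1 z) e e'
    nlinarith [sq_nonneg ((∑ α, f z (I.src e) α) - ∑ α, f z (I.src e') α)]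
  calc ∑ z, corr I (f z) e e'
      ≤ ∑ z, ((∑ α, f z (I.src e) α) ^ 2 + (∑ α, f z (I.src e') α) ^ 2) / 2 :=
        Finset.sum_le_sum (fun z _ => h1 z)
    _ = (∑ z, (∑ α, f z (I.src e) α) ^ 2 + ∑ z, (∑ α, f z (I.src e') α) ^ 2) / 2 := by
        rw [← Finset.sum_add_distrib, Finset.sum_div]
    _ ≤ 1 := by
        have h3 := hf.2 (I.src e)
        have h4 := hf.2 (I.src e')
        linarith

/-- concavity of the square root -/
lemma sum_sqrt_le [Nonempty ι] (I : Game U W Ω ι) (t : ι → ι → ℝ) (ht : ∀ e e', 0 ≤ t e e') :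
    ∑ e, ∑ e', wt I e e' * √(t e e') ≤ √(∑ e, ∑ e', wt I e e' * t e e') := by
  apply Real.le_sqrt_of_sq_le
  rw [← Finset.sum_product', ← Finset.sum_product']
  have h1 := Finset.sum_mul_sq_le_sq_mul_sq (univ ×ˢ univ : Finset (ι × ι))
    (fun p => √(wt I p.1 p.2)) (fun p => √(wt I p.1 p.2) * √(t p.1 p.2))
  have h2 : ∑ p ∈ (univ ×ˢ univ : Finset (ι × ι)), √(wt I p.1 p.2) ^ 2 = 1 := by
    rw [← wt_sum I, ← Finset.sum_product']
    exact Finset.sum_congr rfl (fun p _ => Real.sq_sqrt (wt_nonneg I _ _))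
  rw [h2, one_mul] at h1
  calc (∑ p ∈ (univ ×ˢ univ : Finset (ι × ι)), wt I p.1 p.2 * √(t p.1 p.2)) ^ 2
      = (∑ p ∈ (univ ×ˢ univ : Finset (ι × ι)),
          √(wt I p.1 p.2) * (√(wt I p.1 p.2) * √(t p.1 p.2))) ^ 2 := by
        congr 1
        apply Finset.sum_congr rfl
        intro p _
        rw [← mul_assoc, Real.mul_self_sqrt (wt_nonneg I _ _)]
    _ ≤ _ := h1
    _ = _ := by
        apply Finset.sum_congr rfl
        intro p _
        rw [mul_pow, Real.sq_sqrt (wt_nonneg I _ _), Real.sq_sqrt (ht _ _)]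

lemma exists_err {Z : Type} [Fintype Z] [Nonempty Z] {ε : ℝ} (hε : 0 < ε) :
    ∃ K n : ℕ, 0 < K ∧ 2 * (Fintype.card Z : ℝ) / K + (1 - 1 / (2 * (Fintype.card Z : ℝ))) ^ n ≤ ε := by
  have hZ : (1 : ℝ) ≤ Fintype.card Z := by exact_mod_cast Fintype.card_pos
  have h0 : 0 ≤ 1 - 1 / (2 * (Fintype.card Z : ℝ)) := by
    have : 1 / (2 * (Fintype.card Z : ℝ)) ≤ 1 := by
      rw [div_le_one (by positivity)]; linarith
    linarith
  have h1 : 1 - 1 / (2 * (Fintype.card Z : ℝ)) < 1 := by
    have : 0 < 1 / (2 * (Fintype.card Z : ℝ)) := by positivity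
    linarith
  obtain ⟨n, hn⟩ := exists_pow_lt_of_lt_one (show (0:ℝ) < ε / 2 by positivity) h1
  obtain ⟨K, hK⟩ := exists_nat_gt (2 * (Fintype.card Z : ℝ) / (ε / 2))
  have hK0 : (0:ℝ) < K := lt_trans (by positivity) hK
  refine ⟨K, n, by exact_mod_cast hK0, ?_⟩
  have h2 : 2 * (Fintype.card Z : ℝ) / K ≤ ε / 2 := by
    rw [div_le_iff₀ hK0]
    rw [div_lt_iff₀ (by positivity)] at hK
    linarith
  linarith

lemma main [Nonempty Ω] [Nonempty ι] (I : Game U W Ω ι) (Z : Type) [Fintype Z] [Nonempty Z]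
    (f : Z → U → Ω → ℝ) (hf : Feas f) :
    1 - coll I ≤ 24 * √(1 - ∑ z, form I (f z)) := by
  apply le_of_forall_pos_le_add
  intro ε hε
  obtain ⟨K, n, hK, hKn⟩ := exists_err (Z := Z) hε
  set err : ℝ := 2 * (Fintype.card Z : ℝ) / K + (1 - 1 / (2 * (Fintype.card Z : ℝ))) ^ n with herr
  -- labels of largest mass
  have hmax : ∀ (u : U) (z : Z), ∃ b : Ω, ∀ i, f z u i ≤ f z u b := by
    intro u z
    obtain ⟨b, _, hb⟩ := Finset.exists_max_image (univ : Finset Ω) (fun i => f z u i)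
      univ_nonempty
    exact ⟨b, fun i => hb i (mem_univ i)⟩
  choose a ha using hmax
  obtain ⟨o⟩ := (inferInstance : Nonempty Ω)
  have : NeZero K := ⟨hK.ne'⟩
  have : Nonempty (Z × Fin K) := inferInstance
  let x : (Fin n → Z × Fin K) → U → Ω := fun ρ u => lab (cho K (fun z => f z u) (a u)) o n ρ
  let t : ι → ι → ℝ := fun e e' => ∑ z, corr I (f z) e e'
  have ht : ∀ e e', 0 ≤ 1 - t e e' := by
    intro e e'
    have := tot_le_one I f hf e e'
    show 0 ≤ 1 - ∑ z, corr I (f z) e e'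
    linarith
  have hN : ∑ z, form I (f z) = ∑ e, ∑ e', wt I e e' * t e e' := by
    calc ∑ z, form I (f z) = ∑ z, ∑ e, ∑ e', wt I e e' * corr I (f z) e e' :=
          Finset.sum_congr rfl (fun z _ => form_eq I (f z))
      _ = ∑ e, ∑ e', ∑ z, wt I e e' * corr I (f z) e e' := by
          rw [Finset.sum_comm]
          exact Finset.sum_congr rfl (fun e _ => Finset.sum_comm)
      _ = _ := by
          apply Finset.sum_congr rfl
          intro e _
          apply Finset.sum_congr rfl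
          intro e' _
          rw [Finset.mul_sum]
  have hN' : 1 - ∑ z, form I (f z) = ∑ e, ∑ e', wt I e e' * (1 - t e e') := by
    have hw : 1 - ∑ e, ∑ e', wt I e e' * t e e' =
        (∑ e, ∑ e', wt I e e') - ∑ e, ∑ e', wt I e e' * t e e' := by rw [wt_sum I]
    rw [hN, hw, ← Finset.sum_sub_distrib]
    apply Finset.sum_congr rfl
    intro e _
    rw [← Finset.sum_sub_distrib]
    apply Finset.sum_congr rfl
    intro e' _
    ring
  have hpair : ∀ e e', (𝔼 ρ : Fin n → Z × Fin K,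
      if I.perm e (x ρ (I.src e)) = I.perm e' (x ρ (I.src e')) then (0 : ℝ) else 1) ≤
        24 * √(1 - t e e') + err := by
    intro e e'
    have h1 := pair_perm K hK (fun z => f z (I.src e)) (fun z => f z (I.src e'))
      (fun z i => hf.1 z _ i) (fun z i => hf.1 z _ i) (hf.2 _) (hf.2 _) (a (I.src e))
      (a (I.src e')) (fun z i => ha _ z i) (fun z i => ha _ z i) o o n (I.perm e) (I.perm e')
    rw [herr, ← add_assoc]
    exact h1
  have hform : ∀ ρ, 1 - coll I ≤ ∑ e, ∑ e', wt I e e' *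
      (if I.perm e (x ρ (I.src e)) = I.perm e' (x ρ (I.src e')) then (0 : ℝ) else 1) := by
    intro ρ
    have h1 := form_le_coll I (x ρ)
    have h2 : 1 - form I (ind (x ρ)) = ∑ e, ∑ e', wt I e e' *
      (if I.perm e (x ρ (I.src e)) = I.perm e' (x ρ (I.src e')) then (0 : ℝ) else 1) := by
      have hw : 1 - ∑ e, ∑ e', wt I e e' * corr I (ind (x ρ)) e e' =
          (∑ e, ∑ e', wt I e e') - ∑ e, ∑ e', wt I e e' * corr I (ind (x ρ)) e e' := by
        rw [wt_sum I]
      rw [form_eq, hw, ← Finset.sum_sub_distrib]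
      apply Finset.sum_congr rfl
      intro e _
      rw [← Finset.sum_sub_distrib]
      apply Finset.sum_congr rfl
      intro e' _
      rw [corr_ind]
      split_ifs <;> ring
    linarith
  have h3 : 1 - coll I ≤ 𝔼 ρ : Fin n → Z × Fin K, ∑ e, ∑ e', wt I e e' *
      (if I.perm e (x ρ (I.src e)) = I.perm e' (x ρ (I.src e')) then (0 : ℝ) else 1) :=
    Finset.le_expect univ_nonempty (fun ρ _ => hform ρ)
  have h4 : (𝔼 ρ : Fin n → Z × Fin K, ∑ e, ∑ e', wt I e e' *
      (if I.perm e (x ρ (I.src e)) = I.perm e' (x ρ (I.src e')) then (0 : ℝ) else 1)) =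
      ∑ e, ∑ e', wt I e e' * (𝔼 ρ : Fin n → Z × Fin K,
        if I.perm e (x ρ (I.src e)) = I.perm e' (x ρ (I.src e')) then (0 : ℝ) else 1) := by
    rw [Finset.expect_sum_comm]
    apply Finset.sum_congr rfl
    intro e _
    rw [Finset.expect_sum_comm]
    apply Finset.sum_congr rfl
    intro e' _
    rw [Finset.mul_expect]
  have h5 : ∑ e, ∑ e', wt I e e' * (𝔼 ρ : Fin n → Z × Fin K,
        if I.perm e (x ρ (I.src e)) = I.perm e' (x ρ (I.src e')) then (0 : ℝ) else 1) ≤
      ∑ e, ∑ e', wt I e e' * (24 * √(1 - t e e') + err) :=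
    Finset.sum_le_sum (fun e _ => Finset.sum_le_sum (fun e' _ =>
      mul_le_mul_of_nonneg_left (hpair e e') (wt_nonneg I e e')))
  have h6 : ∑ e, ∑ e', wt I e e' * (24 * √(1 - t e e') + err) =
      24 * (∑ e, ∑ e', wt I e e' * √(1 - t e e')) + err := by
    have h7 : err = ∑ e, ∑ e', wt I e e' * err := by
      have h8 : err = (∑ e, ∑ e', wt I e e') * err := by rw [wt_sum I, one_mul]
      rw [Finset.sum_mul] at h8
      refine h8.trans (Finset.sum_congr rfl (fun e _ => Finset.sum_mul _ _ _))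
    conv_rhs => rw [h7]
    rw [Finset.mul_sum, ← Finset.sum_add_distrib]
    apply Finset.sum_congr rfl
    intro e _
    rw [Finset.mul_sum, ← Finset.sum_add_distrib]
    apply Finset.sum_congr rfl
    intro e' _
    ring
  have h8 := sum_sqrt_le I (fun e e' => 1 - t e e') ht
  rw [← hN'] at h8
  rw [h4] at h3
  rw [h6] at h5
  linarith

end Round

theorem feas_le {U W Ω ι : Type} [DecidableEq W] [Fintype W] [Fintype Ω] [DecidableEq Ω]
    [Nonempty Ω] [Fintype ι] [Nonempty ι] (I : Game U W Ω ι) (Z : Type) [Fintype Z]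
    (f : Z → U → Ω → ℝ) (hf : Feas f) : ∑ z, form I (f z) ≤ 1 - ((1 - coll I) / 24) ^ 2 := by
  have h0 := coll_nonneg I
  have h1 := coll_le_one I
  rcases isEmpty_or_nonempty Z with hZ | hZ
  · rw [Finset.univ_eq_empty, Finset.sum_empty]
    have h2 : ((1 - coll I) / 24) ^ 2 ≤ 1 := by
      apply pow_le_one₀
      · linarith
      · linarith
    linarith
  · have h2 := Round.main I Z f hf
    have h3 : 0 ≤ 1 - ∑ z, form I (f z) := by
      by_contra hc
      push Not at hc
      have h4 : √(1 - ∑ z, form I (f z)) = 0 := Real.sqrt_eq_zero_of_nonpos hc.le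
      have h5 : ∑ z, form I (f z) ≤ 1 := by
        have h6 : ∑ z, form I (f z) = ∑ e, ∑ e', wt I e e' * ∑ z, corr I (f z) e e' := by
          calc ∑ z, form I (f z) = ∑ z, ∑ e, ∑ e', wt I e e' * corr I (f z) e e' :=
                Finset.sum_congr rfl (fun z _ => form_eq I (f z))
            _ = ∑ e, ∑ e', ∑ z, wt I e e' * corr I (f z) e e' := by
                rw [Finset.sum_comm]
                exact Finset.sum_congr rfl (fun e _ => Finset.sum_comm)
            _ = _ := by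
                apply Finset.sum_congr rfl
                intro e _
                apply Finset.sum_congr rfl
                intro e' _
                rw [Finset.mul_sum]
        rw [h6, ← wt_sum I]
        apply Finset.sum_le_sum
        intro e _
        apply Finset.sum_le_sum
        intro e' _
        have h7 := mul_le_mul_of_nonneg_left (Round.tot_le_one I f hf e e') (wt_nonneg I e e')
        linarith
      linarith
    have h4 : (1 - coll I) / 24 ≤ √(1 - ∑ z, form I (f z)) := by linarith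
    have h5 : ((1 - coll I) / 24) ^ 2 ≤ √(1 - ∑ z, form I (f z)) ^ 2 :=
      pow_le_pow_left₀ (by linarith) h4 2
    rw [Real.sq_sqrt h3] at h5
    linarith

end Pool.Agent.P325r
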