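import Mathlib
import Pool.Agent.Lib.P325n.Eqv
import Pool.Agent.Lib.P325n.Out
import Pool.Agent.Lib.P325r.Defs

/-!
# P325r.Square (1.5 h): the square of an instance in polynomial time

`square_value`: the numbering `finProdFinEquiv` of vertices, edges and labels does not change the
value (as `value_congr` in `P325n/Eqv.lean`, with a renaming of the labels on both sides).
`poly_square`: as `poly_app` in `P325n/Out.lean`. With `finProdFinEquiv (x, y) = y + n * x` the edge `k` of the
square is the pair `(k / m, k % m)` of edges, its left end is `src (k % m) + a * src (k / m)`, so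
the left block of the edge `k` is
`(List.range (a * a)).map (fun i => decide (i / a = srcN (k / m)) && decide (i % a = srcN (k % m)))`
(`OutAux.oneHot_eq`; the case `a = 0` is void since the range is empty), the same on the right, and
the permutation matrix of the edge `k` depends only on `(permN (k / m), permN (k % m))`, finitely many
values (`OutAux.polyC_cases` twice, `poly_perm`). `PolyN.div`, `PolyN.mod` in `Pa7c826/Transfer.lean` take
variable divisors with a positivity hypothesis.
-/

open Finset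
open scoped BigOperators

namespace Pool.Agent.P325r

open Pool.Agent.P325f1f.Dich Pool.Agent.P325n Pool.Agent.Lib.PolyTime

/-- The square of an instance, numbered. -/
def square {q : ℕ} (I : Inst q) : Inst (q * q) where
  a := I.a * I.a
  b := I.b * I.b
  m := I.m * I.m
  pos := Nat.mul_pos I.pos I.pos
  game :=
    { src := fun e => finProdFinEquiv (I.game.src (finProdFinEquiv.symm e).1,
        I.game.src (finProdFinEquiv.symm e).2)
      dst := fun e => finProdFinEquiv (I.game.dst (finProdFinEquiv.symm e).1,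
        I.game.dst (finProdFinEquiv.symm e).2)
      perm := fun e => finProdFinEquiv.symm.trans
        (((I.game.perm (finProdFinEquiv.symm e).1).prodCongr
          (I.game.perm (finProdFinEquiv.symm e).2)).trans finProdFinEquiv) }

namespace SquareAux

section congr

variable {U W Ω ι U' W' Ω' ι' : Type} [Fintype ι] [Fintype ι']

/-- The satisfied fraction does not change under a renaming. -/
theorem satFrac_congr (I : Game U W Ω ι) (I' : Game U' W' Ω' ι') (eU : U ≃ U') (eW : W ≃ W')
    (eΩ : Ω ≃ Ω') (eι : ι ≃ ι') (h1 : ∀ e, I'.src (eι e) = eU (I.src e))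
    (h2 : ∀ e, I'.dst (eι e) = eW (I.dst e))
    (h3 : ∀ e α, I'.perm (eι e) (eΩ α) = eΩ (I.perm e α)) (x : U' → Ω') (y : W' → Ω') :
    I'.satFrac x y = I.satFrac (fun u => eΩ.symm (x (eU u))) (fun w => eΩ.symm (y (eW w))) := by
  classical
  unfold Game.satFrac
  rw [Fintype.card_congr eι.symm]
  congr 2
  have key : ∀ e, (I.perm e (eΩ.symm (x (eU (I.src e)))) = eΩ.symm (y (eW (I.dst e))) ↔
      I'.perm (eι e) (x (I'.src (eι e))) = y (I'.dst (eι e))) := by
    intro e
    rw [h1, h2]
    constructor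
    · intro h
      have := h3 e (eΩ.symm (x (eU (I.src e))))
      rw [eΩ.apply_symm_apply] at this
      rw [this, h, eΩ.apply_symm_apply]
    · intro h
      have := h3 e (eΩ.symm (x (eU (I.src e))))
      rw [eΩ.apply_symm_apply, h] at this
      rw [this, eΩ.symm_apply_apply]
  refine (Finset.card_bij (fun e _ => eι e) ?_ ?_ ?_).symm
  · intro e he
    simp only [mem_filter, mem_univ, true_and] at he ⊢
    exact (key e).1 he
  · intro e _ e' _ h
    exact eι.injective h
  · intro e' he'
    refine ⟨eι.symm e', ?_, eι.apply_symm_apply e'⟩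
    simp only [mem_filter, mem_univ, true_and] at he' ⊢
    rw [key, eι.apply_symm_apply]
    exact he'

/-- The value does not change under a renaming of vertices, edges and labels. -/
theorem value_congr' (I : Game U W Ω ι) (I' : Game U' W' Ω' ι') (eU : U ≃ U') (eW : W ≃ W')
    (eΩ : Ω ≃ Ω') (eι : ι ≃ ι') (h1 : ∀ e, I'.src (eι e) = eU (I.src e))
    (h2 : ∀ e, I'.dst (eι e) = eW (I.dst e))
    (h3 : ∀ e α, I'.perm (eι e) (eΩ α) = eΩ (I.perm e α)) : I'.value = I.value := by
  unfold Game.value
  refine (Equiv.iSup_congr ((Equiv.arrowCongr eU eΩ).prodCongr (Equiv.arrowCongr eW eΩ)) ?_).symm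
  rintro ⟨x, y⟩
  rw [satFrac_congr I I' eU eW eΩ eι h1 h2 h3]
  congr 1
  · funext u
    simp
  · funext w
    simp

variable [DecidableEq W] [Fintype W] [Fintype Ω] [DecidableEq Ω]
  [DecidableEq W'] [Fintype W'] [Fintype Ω'] [DecidableEq Ω']

theorem push_congr (I : Game U W Ω ι) (I' : Game U' W' Ω' ι') (eU : U ≃ U') (eW : W ≃ W')
    (eΩ : Ω ≃ Ω') (eι : ι ≃ ι') (h1 : ∀ e, I'.src (eι e) = eU (I.src e))
    (h2 : ∀ e, I'.dst (eι e) = eW (I.dst e))
    (h3 : ∀ e α, I'.perm (eι e) (eΩ α) = eΩ (I.perm e α)) (f : U' → Ω' → ℝ) (w : W) (β : Ω) :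
    push I' f (eW w) (eΩ β) = push I (fun u α => f (eU u) (eΩ α)) w β := by
  unfold push
  refine (Fintype.sum_equiv eι _ _ (fun e => ?_)).symm
  have e3 : (I'.perm (eι e)).symm (eΩ β) = eΩ ((I.perm e).symm β) := by
    rw [Equiv.symm_apply_eq, h3, Equiv.apply_symm_apply]
  rw [h1, h2, e3]
  by_cases h : I.dst e = w
  · rw [if_pos h, if_pos (congrArg eW h)]
  · rw [if_neg h, if_neg (fun h' => h (eW.injective h'))]

theorem deg_congr (I : Game U W Ω ι) (I' : Game U' W' Ω' ι') (eW : W ≃ W')
    (eι : ι ≃ ι') (h2 : ∀ e, I'.dst (eι e) = eW (I.dst e)) (w : W) :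
    deg I' (eW w) = deg I w := by
  unfold deg
  refine (Finset.card_bij (fun e _ => eι e) ?_ ?_ ?_).symm
  · intro e he
    simp only [mem_filter, mem_univ, true_and] at he ⊢
    rw [h2, he]
  · intro e _ e' _ h
    exact eι.injective h
  · intro e' he'
    refine ⟨eι.symm e', ?_, eι.apply_symm_apply e'⟩
    simp only [mem_filter, mem_univ, true_and] at he' ⊢
    apply eW.injective
    rw [← h2, eι.apply_symm_apply, he']

theorem form_congr (I : Game U W Ω ι) (I' : Game U' W' Ω' ι') (eU : U ≃ U') (eW : W ≃ W')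
    (eΩ : Ω ≃ Ω') (eι : ι ≃ ι') (h1 : ∀ e, I'.src (eι e) = eU (I.src e))
    (h2 : ∀ e, I'.dst (eι e) = eW (I.dst e))
    (h3 : ∀ e α, I'.perm (eι e) (eΩ α) = eΩ (I.perm e α)) (f : U' → Ω' → ℝ) :
    form I' f = form I (fun u α => f (eU u) (eΩ α)) := by
  unfold form
  refine (Fintype.sum_equiv eW _ _ (fun w => ?_)).symm
  rw [deg_congr I I' eW eι h2, Fintype.card_congr eι]
  congr 1
  refine Fintype.sum_equiv eΩ _ _ (fun β => ?_)
  rw [push_congr I I' eU eW eΩ eι h1 h2 h3]

theorem coll_congr (I : Game U W Ω ι) (I' : Game U' W' Ω' ι') (eU : U ≃ U') (eW : W ≃ W')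
    (eΩ : Ω ≃ Ω') (eι : ι ≃ ι') (h1 : ∀ e, I'.src (eι e) = eU (I.src e))
    (h2 : ∀ e, I'.dst (eι e) = eW (I.dst e))
    (h3 : ∀ e α, I'.perm (eι e) (eΩ α) = eΩ (I.perm e α)) : coll I' = coll I := by
  unfold coll
  refine (Equiv.iSup_congr (Equiv.arrowCongr eU eΩ) ?_).symm
  intro x
  rw [form_congr I I' eU eW eΩ eι h1 h2 h3]
  congr 1
  funext u α
  unfold ind
  simp

end congr

section sq

variable {q : ℕ} (I : Inst q)

theorem hsrc (e : Fin I.m × Fin I.m) : (square I).game.src (finProdFinEquiv e) =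
    finProdFinEquiv ((prodGame I.game I.game).src e) := by
  show finProdFinEquiv (I.game.src (finProdFinEquiv.symm (finProdFinEquiv e)).1,
    I.game.src (finProdFinEquiv.symm (finProdFinEquiv e)).2) = _
  rw [Equiv.symm_apply_apply]
  rfl

theorem hdst (e : Fin I.m × Fin I.m) : (square I).game.dst (finProdFinEquiv e) =
    finProdFinEquiv ((prodGame I.game I.game).dst e) := by
  show finProdFinEquiv (I.game.dst (finProdFinEquiv.symm (finProdFinEquiv e)).1,
    I.game.dst (finProdFinEquiv.symm (finProdFinEquiv e)).2) = _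
  rw [Equiv.symm_apply_apply]
  rfl

theorem hperm (e : Fin I.m × Fin I.m) (α : Fin q × Fin q) :
    (square I).game.perm (finProdFinEquiv e) (finProdFinEquiv α) =
      finProdFinEquiv ((prodGame I.game I.game).perm e α) := by
  show finProdFinEquiv (((I.game.perm (finProdFinEquiv.symm (finProdFinEquiv e)).1).prodCongr
    (I.game.perm (finProdFinEquiv.symm (finProdFinEquiv e)).2))
      (finProdFinEquiv.symm (finProdFinEquiv α))) = _
  rw [Equiv.symm_apply_apply, Equiv.symm_apply_apply]
  rfl

/-- the matrix of the constraint of a pair of edges -/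
def matQ (π ρ : Equiv.Perm (Fin q)) : List Bool :=
  (List.finRange (q * q)).flatMap (fun i => oneHot (q * q)
    ((finProdFinEquiv.symm.trans ((π.prodCongr ρ).trans finProdFinEquiv) :
      Equiv.Perm (Fin (q * q))) i))

/-- the block of an edge of the square -/
def blk2 (k : ℕ) : List Bool :=
  (List.range (I.a * I.a)).map
      (fun i => decide (i / I.a = I.srcN (k / I.m)) && decide (i % I.a = I.srcN (k % I.m))) ++
    ((List.range (I.b * I.b)).map
      (fun i => decide (i / I.b = I.dstN (k / I.m)) && decide (i % I.b = I.dstN (k % I.m))) ++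
        matQ (I.permN (k / I.m)) (I.permN (k % I.m)))

theorem encode_square :
    (square I).encode = un (I.a * I.a) ++ (false :: (un (I.b * I.b) ++ (false ::
      (un (I.m * I.m) ++ (false :: (List.range (I.m * I.m)).flatMap (blk2 I)))))) := by
  unfold Inst.encode un
  congr 6
  refine OutAux.flatMap_finRange (n := I.m * I.m) _ _ fun e => ?_
  have hC := I.pos
  have he : (e : ℕ) < I.m * I.m := e.2
  have h1 : (e : ℕ) / I.m < I.m := (Nat.div_lt_iff_lt_mul hC).2 he
  have h2 : (e : ℕ) % I.m < I.m := Nat.mod_lt _ hC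
  have k1 : I.srcN ((e : ℕ) / I.m) = I.game.src ⟨(e : ℕ) / I.m, h1⟩ := by
    simp [Inst.srcN, h1]
  have k2 : I.dstN ((e : ℕ) / I.m) = I.game.dst ⟨(e : ℕ) / I.m, h1⟩ := by
    simp [Inst.dstN, h1]
  have k3 : I.permN ((e : ℕ) / I.m) = I.game.perm ⟨(e : ℕ) / I.m, h1⟩ := by
    simp [Inst.permN, h1]
  have k4 : I.srcN ((e : ℕ) % I.m) = I.game.src ⟨(e : ℕ) % I.m, h2⟩ := by
    simp [Inst.srcN, h2]
  have k5 : I.dstN ((e : ℕ) % I.m) = I.game.dst ⟨(e : ℕ) % I.m, h2⟩ := by
    simp [Inst.dstN, h2]
  have k6 : I.permN ((e : ℕ) % I.m) = I.game.perm ⟨(e : ℕ) % I.m, h2⟩ := by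
    simp [Inst.permN, h2]
  unfold blk2
  rw [k1, k2, k3, k4, k5, k6, ← OutAux.oneHot_eq (I.game.src ⟨(e : ℕ) % I.m, h2⟩).2,
    ← OutAux.oneHot_eq (I.game.dst ⟨(e : ℕ) % I.m, h2⟩).2]
  rfl

end sq

end SquareAux

open SquareAux

theorem square_value {q : ℕ} (I : Inst q) :
    (square I).game.value = (prodGame I.game I.game).value :=
  value_congr' _ _ finProdFinEquiv finProdFinEquiv finProdFinEquiv finProdFinEquiv
    (hsrc I) (hdst I) (hperm I)

theorem square_coll {q : ℕ} (I : Inst q) :
    coll (square I).game = coll (prodGame I.game I.game) :=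
  coll_congr _ _ finProdFinEquiv finProdFinEquiv finProdFinEquiv finProdFinEquiv
    (hsrc I) (hdst I) (hperm I)

theorem poly_square {q : ℕ} :
    PolyC (fun _ : Inst q => True) [Inst.encode] (fun I => (square I).encode) := by
  have hw : PolyC (fun _ : Inst q => True) [Inst.encode] (fun I => I.encode) :=
    PolyC.var (by simp)
  have ha := poly_a (w := fun I : Inst q => I) hw
  have hb := poly_b (w := fun I : Inst q => I) hw
  have hm := poly_m (w := fun I : Inst q => I) hw
  have haA := ha.mul ha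
  have hbB := hb.mul hb
  have hmC := hm.mul hm
  -- level 1: the edge number
  have hw1 := Pool.Agent.Lib.Pa7c826.up (n := fun I : Inst q => I.m * I.m) hw
  have hk := Pool.Agent.Lib.Pa7c826.last (D := fun _ : Inst q => True) (ctx := [Inst.encode])
    (n := fun I : Inst q => I.m * I.m)
  have hm1 := Pool.Agent.Lib.Pa7c826.upN (n := fun I : Inst q => I.m * I.m) hm
  have hc := Pool.Agent.Lib.Pa7c826.PolyN.mod hk hm1 (fun p _ => p.1.pos)
  have he := Pool.Agent.Lib.Pa7c826.PolyN.div hk hm1 (fun p _ => p.1.pos)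
  have haA1 := Pool.Agent.Lib.Pa7c826.upN (n := fun I : Inst q => I.m * I.m) haA
  have hbB1 := Pool.Agent.Lib.Pa7c826.upN (n := fun I : Inst q => I.m * I.m) hbB
  have ha1 := Pool.Agent.Lib.Pa7c826.upN (n := fun I : Inst q => I.m * I.m) ha
  have hb1 := Pool.Agent.Lib.Pa7c826.upN (n := fun I : Inst q => I.m * I.m) hb
  have hblk : PolyC (fun p : Inst q × ℕ => True ∧ p.2 < p.1.m * p.1.m)
      (Pool.Agent.Lib.PolyTime.lift [Inst.encode] ++ [fun p => un p.2])
        (fun p => blk2 p.1 p.2) := by
    refine PolyC.append ?_ (PolyC.append ?_ ?_)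
    · -- left end
      refine PolyC.map_range (n := fun p : Inst q × ℕ => p.1.a * p.1.a)
        (φ := fun r => decide (r.2 / r.1.1.a = r.1.1.srcN (r.1.2 / r.1.1.m)) &&
          decide (r.2 % r.1.1.a = r.1.1.srcN (r.1.2 % r.1.1.m))) haA1 ?_
      have hw2 := Pool.Agent.Lib.Pa7c826.up (n := fun p : Inst q × ℕ => p.1.a * p.1.a) hw1
      have hc2 := Pool.Agent.Lib.Pa7c826.upN (n := fun p : Inst q × ℕ => p.1.a * p.1.a) hc
      have he2 := Pool.Agent.Lib.Pa7c826.upN (n := fun p : Inst q × ℕ => p.1.a * p.1.a) he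
      have ha2 := Pool.Agent.Lib.Pa7c826.upN (n := fun p : Inst q × ℕ => p.1.a * p.1.a) ha1
      have hi := Pool.Agent.Lib.Pa7c826.last (D := fun p : Inst q × ℕ => True ∧ p.2 < p.1.m * p.1.m)
        (ctx := Pool.Agent.Lib.PolyTime.lift [Inst.encode] ++ [fun p => un p.2])
        (n := fun p : Inst q × ℕ => p.1.a * p.1.a)
      have hA : ∀ r : (Inst q × ℕ) × ℕ, ((True ∧ r.1.2 < r.1.1.m * r.1.1.m) ∧
          r.2 < r.1.1.a * r.1.1.a) → 0 < r.1.1.a := by
        intro r hr
        rcases Nat.eq_zero_or_pos r.1.1.a with h | h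
        · rw [h, mul_zero] at hr
          omega
        · exact h
      have hid := Pool.Agent.Lib.Pa7c826.PolyN.div hi ha2 hA
      have him := Pool.Agent.Lib.Pa7c826.PolyN.mod hi ha2 hA
      refine PolyB.and ?_ ?_
      · refine poly_src (w := fun r : (Inst q × ℕ) × ℕ => r.1.1) hw2 he2 hid ?_ ?_
        · intro r hr
          exact Nat.div_lt_of_lt_mul hr.1.2
        · intro r hr
          exact Nat.div_lt_of_lt_mul hr.2
      · refine poly_src (w := fun r : (Inst q × ℕ) × ℕ => r.1.1) hw2 hc2 him ?_ ?_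
        · intro r hr
          exact Nat.mod_lt _ r.1.1.pos
        · intro r hr
          exact Nat.mod_lt _ (hA r hr)
    · -- right end
      refine PolyC.map_range (n := fun p : Inst q × ℕ => p.1.b * p.1.b)
        (φ := fun r => decide (r.2 / r.1.1.b = r.1.1.dstN (r.1.2 / r.1.1.m)) &&
          decide (r.2 % r.1.1.b = r.1.1.dstN (r.1.2 % r.1.1.m))) hbB1 ?_
      have hw2 := Pool.Agent.Lib.Pa7c826.up (n := fun p : Inst q × ℕ => p.1.b * p.1.b) hw1
      have hc2 := Pool.Agent.Lib.Pa7c826.upN (n := fun p : Inst q × ℕ => p.1.b * p.1.b) hc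
      have he2 := Pool.Agent.Lib.Pa7c826.upN (n := fun p : Inst q × ℕ => p.1.b * p.1.b) he
      have hb2 := Pool.Agent.Lib.Pa7c826.upN (n := fun p : Inst q × ℕ => p.1.b * p.1.b) hb1
      have hi := Pool.Agent.Lib.Pa7c826.last (D := fun p : Inst q × ℕ => True ∧ p.2 < p.1.m * p.1.m)
        (ctx := Pool.Agent.Lib.PolyTime.lift [Inst.encode] ++ [fun p => un p.2])
        (n := fun p : Inst q × ℕ => p.1.b * p.1.b)
      have hA : ∀ r : (Inst q × ℕ) × ℕ, ((True ∧ r.1.2 < r.1.1.m * r.1.1.m) ∧
          r.2 < r.1.1.b * r.1.1.b) → 0 < r.1.1.b := by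
        intro r hr
        rcases Nat.eq_zero_or_pos r.1.1.b with h | h
        · rw [h, mul_zero] at hr
          omega
        · exact h
      have hid := Pool.Agent.Lib.Pa7c826.PolyN.div hi hb2 hA
      have him := Pool.Agent.Lib.Pa7c826.PolyN.mod hi hb2 hA
      refine PolyB.and ?_ ?_
      · refine poly_dst (w := fun r : (Inst q × ℕ) × ℕ => r.1.1) hw2 he2 hid ?_ ?_
        · intro r hr
          exact Nat.div_lt_of_lt_mul hr.1.2
        · intro r hr
          exact Nat.div_lt_of_lt_mul hr.2
      · refine poly_dst (w := fun r : (Inst q × ℕ) × ℕ => r.1.1) hw2 hc2 him ?_ ?_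
        · intro r hr
          exact Nat.mod_lt _ r.1.1.pos
        · intro r hr
          exact Nat.mod_lt _ (hA r hr)
    · -- the constraint
      refine OutAux.polyC_cases (Finset.univ : Finset (Equiv.Perm (Fin q))).toList
        (f := fun r : Inst q × ℕ => r.1.permN (r.2 / r.1.m))
        (G := fun π r => matQ π (r.1.permN (r.2 % r.1.m)))
        (fun π => poly_perm (w := fun r : Inst q × ℕ => r.1) hw1 he
          (fun r hr => Nat.div_lt_of_lt_mul hr.2) π)
        (fun r _ => by simp) (fun π => ?_)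
      exact OutAux.polyC_cases (Finset.univ : Finset (Equiv.Perm (Fin q))).toList
        (f := fun r : Inst q × ℕ => r.1.permN (r.2 % r.1.m))
        (G := fun ρ _ => matQ π ρ)
        (fun ρ => poly_perm (w := fun r : Inst q × ℕ => r.1) hw1 hc
          (fun r _ => Nat.mod_lt _ r.1.pos) ρ)
        (fun r _ => by simp) (fun ρ => PolyC.const _)
  refine ((PolyC.append haA (PolyC.cons false (PolyC.append hbB (PolyC.cons false
    (PolyC.append hmC (PolyC.cons false (PolyC.flatMap_range hmC hblk))))))).congr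
      (fun I _ => ?_))
  rw [encode_square]

end Pool.Agent.P325r
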