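import Mathlib
import Pool.Agent.Lib.P325r.Amplify
import Pool.Agent.Lib.P325r.TypedDefs
import Pool.Agent.Lib.P325t.WHard

/-!
# Typed unique games: equivalence with the conjecture above the threshold
-/

open Finset
open scoped BigOperators

namespace Pool.Agent.P325r

open Pool.Agent.P325f1f.Dich Pool.Agent.P325n Pool.Agent.P325t

/-- The value of a game does not change if vertices, edges and labels are renamed. -/
theorem value_relabel {U W Ω ι U' W' Ω' ι' : Type} [Fintype ι] [Fintype ι'] (I : Game U W Ω ι)
    (I' : Game U' W' Ω' ι') (eU : U ≃ U') (eW : W ≃ W') (eι : ι ≃ ι') (eΩ : Ω ≃ Ω')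
    (h1 : ∀ e, I'.src (eι e) = eU (I.src e)) (h2 : ∀ e, I'.dst (eι e) = eW (I.dst e))
    (h3 : ∀ e ω, I'.perm (eι e) (eΩ ω) = eΩ (I.perm e ω)) : I'.value = I.value := by
  classical
  have key : ∀ (x : U' → Ω') (y : W' → Ω'), I'.satFrac x y =
      I.satFrac (fun u => eΩ.symm (x (eU u))) (fun w => eΩ.symm (y (eW w))) := by
    intro x y
    unfold Game.satFrac
    rw [Fintype.card_congr eι.symm]
    congr 2
    refine (Finset.card_bij (fun e _ => eι e) ?_ ?_ ?_).symm
    · intro e he
      simp only [mem_filter, mem_univ, true_and] at he ⊢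
      have h4 := h3 e (eΩ.symm (x (eU (I.src e))))
      rw [eΩ.apply_symm_apply] at h4
      rw [h1, h2, h4, he, eΩ.apply_symm_apply]
    · intro e _ e' _ h
      exact eι.injective h
    · intro e' he'
      refine ⟨eι.symm e', ?_, eι.apply_symm_apply e'⟩
      simp only [mem_filter, mem_univ, true_and] at he' ⊢
      have h4 := h3 (eι.symm e') (eΩ.symm (x (eU (I.src (eι.symm e')))))
      rw [eΩ.apply_symm_apply, eι.apply_symm_apply] at h4
      rw [← eΩ.symm_apply_apply (I.perm (eι.symm e') (eΩ.symm (x (eU (I.src (eι.symm e')))))), ← h4,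
        ← h1, ← h2, eι.apply_symm_apply, he']
  unfold Game.value
  refine (Equiv.iSup_congr ((Equiv.arrowCongr eU eΩ).prodCongr (Equiv.arrowCongr eW eΩ)) ?_).symm
  rintro ⟨x, y⟩
  rw [key]
  congr 1 <;> · ext v; simp

/-- A local replacement with finite types of copies, carrying types along. -/
theorem exists_locT {q q' : ℕ} {A B C P Q κ : Type} [Fintype A] [Fintype B] [Fintype C] [Nonempty C]
    [Fintype κ] (T : TypeGraph P Q κ) (w : κ → ℕ) (τ : κ → Equiv.Perm (Fin q'))
    (s : C → A) (d : C → Equiv.Perm (Fin q) → B) (σ : C → Equiv.Perm (Fin q'))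
    (tA : A → P) (tB : B → Q) (tC : C → κ) (h1 : ∀ c, tA (s c) = T.src (tC c))
    (h2 : ∀ c π, tB (d c π) = T.dst (tC c)) (h3 : ∀ c, σ c = τ (tC c))
    (h4 : ∀ [DecidableEq κ] (k : κ), (univ.filter (fun c => tC c = k)).card * ∑ l, w l =
      w k * Fintype.card C) :
    ∃ R : Loc q q', (∀ I : Inst q, R.app I ∈ TypedInst T w τ) ∧
      ∀ I : Inst q, (R.app I).game.value = (localGame s d σ I.game).value := by
  classical
  refine ⟨⟨Fintype.card A, Fintype.card B, Fintype.card C, Fintype.card_pos,
    fun c => Fintype.equivFin A (s ((Fintype.equivFin C).symm c)),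
    fun c π => Fintype.equivFin B (d ((Fintype.equivFin C).symm c) π),
    fun c => σ ((Fintype.equivFin C).symm c)⟩, ?_, ?_⟩
  · intro I
    refine ⟨fun v => tA ((Fintype.equivFin A).symm (finProdFinEquiv.symm v).2),
      fun v => tB ((Fintype.equivFin B).symm (finProdFinEquiv.symm v).2),
      fun e => tC ((Fintype.equivFin C).symm (finProdFinEquiv.symm e).2), ?_, ?_⟩
    · intro e
      refine ⟨?_, ?_, ?_⟩
      · show tA ((Fintype.equivFin A).symm (finProdFinEquiv.symm (finProdFinEquiv (_,
          Fintype.equivFin A (s ((Fintype.equivFin C).symm (finProdFinEquiv.symm e).2))))).2) = _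
        rw [Equiv.symm_apply_apply, Equiv.symm_apply_apply, h1]
      · show tB ((Fintype.equivFin B).symm (finProdFinEquiv.symm (finProdFinEquiv (_,
          Fintype.equivFin B (d ((Fintype.equivFin C).symm (finProdFinEquiv.symm e).2) _)))).2) = _
        rw [Equiv.symm_apply_apply, Equiv.symm_apply_apply, h2]
      · exact h3 _
    · intro k
      have h5 := h4 k
      show (univ.filter (fun e : Fin (I.m * Fintype.card C) =>
        tC ((Fintype.equivFin C).symm (finProdFinEquiv.symm e).2) = k)).card * ∑ l, w l =
          w k * (I.m * Fintype.card C)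
      have h6 : (univ.filter (fun e : Fin (I.m * Fintype.card C) =>
          tC ((Fintype.equivFin C).symm (finProdFinEquiv.symm e).2) = k)).card =
          I.m * (univ.filter (fun c => tC c = k)).card := by
        have h7 : (univ.filter (fun e : Fin (I.m * Fintype.card C) =>
            tC ((Fintype.equivFin C).symm (finProdFinEquiv.symm e).2) = k)).card =
            ((univ : Finset (Fin I.m)) ×ˢ (univ.filter (fun c : C => tC c = k))).card := by
          refine Finset.card_bij (fun e _ => ((finProdFinEquiv.symm e).1,
            (Fintype.equivFin C).symm (finProdFinEquiv.symm e).2)) ?_ ?_ ?_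
          · intro e he
            simp only [mem_filter, mem_univ, true_and, mem_product] at he ⊢
            exact he
          · intro e _ e' _ h
            rw [Prod.mk.injEq] at h
            have h8 := (Fintype.equivFin C).symm.injective h.2
            exact finProdFinEquiv.symm.injective (Prod.ext h.1 h8)
          · rintro ⟨i, c⟩ hc
            simp only [mem_filter, mem_univ, true_and, mem_product] at hc
            refine ⟨finProdFinEquiv (i, Fintype.equivFin C c), ?_, ?_⟩
            · simp only [mem_filter, mem_univ, true_and]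
              rw [Equiv.symm_apply_apply, Equiv.symm_apply_apply]
              exact hc
            · rw [Equiv.symm_apply_apply, Equiv.symm_apply_apply]
        rw [h7, card_product, card_univ, Fintype.card_fin]
      rw [h6]
      calc I.m * (univ.filter (fun c => tC c = k)).card * ∑ l, w l
          = I.m * ((univ.filter (fun c => tC c = k)).card * ∑ l, w l) := by ring
        _ = I.m * (w k * Fintype.card C) := by rw [h5]
        _ = w k * (I.m * Fintype.card C) := by ring
  · intro I
    rw [Loc.app_value]
    refine value_congr _ _ ((Equiv.refl _).prodCongr (Fintype.equivFin A))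
      ((Equiv.refl _).prodCongr (Fintype.equivFin B))
      ((Equiv.refl _).prodCongr (Fintype.equivFin C)) ?_ ?_ ?_
    · intro e
      simp [localGame]
    · intro e
      simp [localGame]
    · intro e
      simp [localGame]

end Pool.Agent.P325r
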