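import Mathlib
import Pool.Agent.Lib.P325r.Typed

/-!
# Typed unique games: the gap problem at every soundness above the threshold is the conjecture
-/

open Finset
open scoped BigOperators

namespace Pool.Agent.P325r

open Pool.Agent.P325f1f.Dich Pool.Agent.P325n Pool.Agent.P325t

theorem card_types {κ Y : Type} [Fintype κ] [Fintype Y] [DecidableEq κ] (w : κ → ℕ) (k : κ) :
    (univ.filter (fun c : ((l : κ) × Fin (w l)) × Y => c.1.1 = k)).card * ∑ l, w l =
      w k * Fintype.card (((l : κ) × Fin (w l)) × Y) := by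
  have h1 : (univ.filter (fun c : ((l : κ) × Fin (w l)) × Y => c.1.1 = k)).card =
      w k * Fintype.card Y := by
    have h2 : (univ.filter (fun c : ((l : κ) × Fin (w l)) × Y => c.1.1 = k)).card =
        (univ : Finset (Fin (w k) × Y)).card := by
      refine (Finset.card_bij (fun (p : Fin (w k) × Y) _ => ((⟨k, p.1⟩ : (l : κ) × Fin (w l)), p.2))
        ?_ ?_ ?_).symm
      · intro p _
        simp
      · rintro ⟨i, y⟩ _ ⟨i', y'⟩ _ h
        simp only [Prod.mk.injEq, Sigma.mk.injEq, heq_eq_eq, true_and] at h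
        exact Prod.ext h.1 h.2
      · rintro ⟨⟨l, i⟩, y⟩ h
        simp only [mem_filter, mem_univ, true_and] at h
        subst h
        exact ⟨(i, y), mem_univ _, rfl⟩
    rw [h2, card_univ, Fintype.card_prod, Fintype.card_fin]
  rw [h1, Fintype.card_prod, Fintype.card_sigma]
  simp only [Fintype.card_fin]
  ring

/-- The typed long code game as a local replacement. -/
theorem exists_typed_loc {P Q κ Ω : Type} [Fintype P] [Fintype Q] [Fintype κ] [Fintype Ω]
    [Nonempty Ω] (T : TypeGraph P Q κ) (w : κ → ℕ) (hw : 0 < ∑ k, w k) (t : ℕ) (ht : 1 ≤ t)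
    (σ : κ → Equiv.Perm Ω) (q : ℕ) :
    ∃ R : Loc q (Fintype.card Ω), (∀ I : Inst q, R.app I ∈ TypedInst T w
        (fun k => (Fintype.equivFin Ω).symm.trans ((σ k).trans (Fintype.equivFin Ω)))) ∧
      ∀ I : Inst q, (R.app I).game.value =
        (typedGame t (T.copies w) (fun p => σ p.1) I.game).value := by
  classical
  have hk : Nonempty ((k : κ) × Fin (w k)) := by
    by_contra hne
    rw [not_nonempty_iff] at hne
    have h0 : ∀ k, w k = 0 := by
      intro k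
      by_contra hk
      exact hne.elim ⟨k, ⟨0, Nat.pos_of_ne_zero hk⟩⟩
    rw [Finset.sum_eq_zero (fun k _ => h0 k)] at hw
    exact lt_irrefl _ hw
  have ht0 : Nonempty (Fin t) := ⟨⟨0, ht⟩⟩
  obtain ⟨R, hR1, hR2⟩ := exists_locT (q := q) (q' := Fintype.card Ω)
    (A := P × (Fin q → Ω)) (B := Q × (Fin q → Ω))
    (C := ((k : κ) × Fin (w k)) × (Fin q → Ω) × (Fin q → Fin t × Ω)) T w
    (fun k => (Fintype.equivFin Ω).symm.trans ((σ k).trans (Fintype.equivFin Ω)))
    (fun c => (T.src c.1.1, c.2.1))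
    (fun c π => (T.dst c.1.1, fun i => σ c.1.1 (mix c.2.1 c.2.2 (π.symm i))))
    (fun c => (Fintype.equivFin Ω).symm.trans ((σ c.1.1).trans (Fintype.equivFin Ω)))
    Prod.fst Prod.fst (fun c => c.1.1) (fun _ => rfl) (fun _ _ => rfl) (fun _ => rfl)
    (fun {inst} k => by
      have h := @card_types κ ((Fin q → Ω) × (Fin q → Fin t × Ω)) _ _ inst w k
      exact h)
  refine ⟨R, hR1, fun I => ?_⟩
  rw [hR2]
  refine value_relabel (typedGame t (T.copies w) (fun p => σ p.1) I.game) _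
    ⟨fun p => (p.2.1, (p.1, p.2.2)), fun p => (p.2.1, (p.1, p.2.2)), fun _ => rfl, fun _ => rfl⟩
    ⟨fun p => (p.2.1, (p.1, p.2.2)), fun p => (p.2.1, (p.1, p.2.2)), fun _ => rfl, fun _ => rfl⟩
    (Equiv.refl _) (Fintype.equivFin Ω) ?_ ?_ ?_
  · intro e
    rfl
  · intro e
    rfl
  · intro e ω
    show (Fintype.equivFin Ω) (σ _ ((Fintype.equivFin Ω).symm ((Fintype.equivFin Ω) ω))) = _
    rw [Equiv.symm_apply_apply]
    rfl

theorem typedHard_of_gapHard {P Q κ : Type} [Fintype P] [Fintype Q] [Fintype κ]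
    (T : TypeGraph P Q κ) (w : κ → ℕ) (hw : T.maxWeight w < ∑ k, w k) (c₁ δ : ℚ) (hc₁ : c₁ ≤ 1)
    (hδ : (T.maxWeight w : ℚ) / ((∑ k, w k : ℕ) : ℚ) ≤ δ) (h : GapHard c₁ allPerms) :
    TypedHard c₁ T w δ := by
  intro ε hε hεδ
  have hεr : (0 : ℝ) < ε := by exact_mod_cast hε
  have hδ0 : 0 ≤ δ := le_trans (by positivity) hδ
  have hc0 : 0 < c₁ := by linarith
  have hc0r : (0 : ℝ) < c₁ := by exact_mod_cast hc0
  have hc1r : (c₁ : ℝ) ≤ 1 := by exact_mod_cast hc₁
  obtain ⟨t, ht⟩ := exists_nat_gt (2 / (ε : ℝ))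
  have ht0 : (0 : ℝ) < t := lt_trans (by positivity) ht
  have ht1 : 1 ≤ t := by
    have : 0 < t := by exact_mod_cast ht0
    omega
  have hinv : 1 / (t : ℝ) ≤ ε / 2 := by
    rw [div_le_iff₀ ht0]
    rw [div_lt_iff₀ hεr] at ht
    linarith
  obtain ⟨Ω, _, _, σ, c, M, hc, hM⟩ := hardW T w hw t ht1
  obtain ⟨δ2, hδ2, hδ2'⟩ := exists_rat_btwn
    (show (0 : ℝ) < min (c / (|M| + 1)) (c₁ / 2) from lt_min (by positivity) (by positivity))
  have hδ20 : 0 < δ2 := by exact_mod_cast hδ2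
  have hδ21 : (δ2 : ℝ) < c / (|M| + 1) := lt_of_lt_of_le hδ2' (min_le_left _ _)
  have hδ22 : δ2 < c₁ / 2 := by
    have h1 : (δ2 : ℝ) < c₁ / 2 := lt_of_lt_of_le hδ2' (min_le_right _ _)
    have h2 : ((δ2 : ℚ) : ℝ) < ((c₁ / 2 : ℚ) : ℝ) := by push_cast; exact h1
    exact_mod_cast h2
  obtain ⟨q, hq, P', _, hhard⟩ := h (ε / 2) δ2 (by linarith) hδ20 (by linarith)
  have hneq : Nonempty (Fin q) := ⟨⟨0, hq⟩⟩
  obtain ⟨R, hR1, hR2⟩ := exists_typed_loc T w (by omega) t ht1 σ q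
  refine ⟨Fintype.card Ω, Fintype.card_pos,
    fun k => (Fintype.equivFin Ω).symm.trans ((σ k).trans (Fintype.equivFin Ω)),
    hhard.map R.app (poly_app R) ?_ ?_⟩
  · rintro I ⟨_, hI⟩
    refine ⟨hR1 I, ?_⟩
    rw [hR2]
    have hm : Nonempty (Fin I.m) := ⟨⟨0, I.pos⟩⟩
    refine le_trans ?_ (hM _ _ _ _ I.game).2.1
    have h1 := value_le_one I.game
    have h2 := value_nonneg I.game
    push_cast at hI ⊢
    have h3 : (1 - (ε : ℝ) / 2) * I.game.value ≤ (1 - 1 / (t : ℝ)) * I.game.value :=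
      mul_le_mul_of_nonneg_right (by linarith) h2
    refine le_trans ?_ h3
    nlinarith
  · rintro I ⟨_, hI⟩
    refine ⟨hR1 I, ?_⟩
    rw [hR2]
    have hm : Nonempty (Fin I.m) := ⟨⟨0, I.pos⟩⟩
    refine ((hM _ _ _ _ I.game).2.2).trans ?_
    have h2 := value_nonneg I.game
    have h4 : M * I.game.value ≤ c := by
      have h5 : M * I.game.value ≤ |M| * I.game.value :=
        mul_le_mul_of_nonneg_right (le_abs_self M) h2
      have h6 : |M| * I.game.value ≤ |M| * (c / (|M| + 1)) :=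
        mul_le_mul_of_nonneg_left (hI.trans hδ21.le) (abs_nonneg M)
      have h7 : |M| * (c / (|M| + 1)) ≤ c := by
        rw [mul_div_assoc', div_le_iff₀ (by positivity)]
        nlinarith [abs_nonneg M]
      linarith
    have h8 : (T.maxWeight w : ℝ) / ((∑ k, w k : ℕ) : ℝ) ≤ ((δ : ℚ) : ℝ) := by
      have h9 : (((T.maxWeight w : ℚ) / ((∑ k, w k : ℕ) : ℚ) : ℚ) : ℝ) ≤ ((δ : ℚ) : ℝ) := by
        exact_mod_cast hδ
      rw [Rat.cast_div, Rat.cast_natCast, Rat.cast_natCast] at h9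
      exact h9
    linarith

/-- From the threshold on the conjecture gives NP-hardness of the typed gap problem. -/
theorem typedHard_of {P Q κ : Type} [Fintype P] [Fintype Q] [Fintype κ]
    (T : TypeGraph P Q κ) (w : κ → ℕ) (hw : 0 < ∑ k, w k) (c δ : ℚ) (hc : c ≤ 1)
    (hδ : (T.maxWeight w : ℚ) / ((∑ k, w k : ℕ) : ℚ) ≤ δ) (hδc : δ < c)
    (h : GapHard c allPerms) : TypedHard c T w δ := by
  refine typedHard_of_gapHard T w ?_ c δ hc hδ h
  have hn : (0 : ℚ) < ((∑ k, w k : ℕ) : ℚ) := by exact_mod_cast hw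
  have h1 : (T.maxWeight w : ℚ) / ((∑ k, w k : ℕ) : ℚ) < 1 :=
    lt_of_le_of_lt hδ (lt_of_lt_of_le hδc hc)
  rw [div_lt_one hn] at h1
  exact_mod_cast h1

/-- NP-hardness of a typed gap problem with completeness near `1` gives the conjecture. -/
theorem gapHard_of_typed {P Q κ : Type} [Fintype κ] (T : TypeGraph P Q κ) (w : κ → ℕ) (δ : ℚ)
    (hδ1 : δ < 1) (h : TypedHard 1 T w δ) : GapHard 1 allPerms := by
  refine amplify δ hδ1 (fun ε hε hεδ => ?_)
  obtain ⟨q, hq, σ, hh⟩ := h ε hε hεδ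
  exact ⟨q, hq, hh.mono (fun I hI => hI.2) (fun I hI => hI.2)⟩

end Pool.Agent.P325r
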